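import Pool.Agent.Helper89K9.TG.Base

set_option autoImplicit false

namespace Pool.Agent.Helper89K9.TG

open Pool.Agent.Helper227 Pool.Agent.H685R3 Pool.Agent.Y588.VT Set Topology

/-- The moves at positions congruent to `β` from `a`, the others from `b`. -/
def mx (β : ℕ) (a b : ℕ → Bool) (n : ℕ) : Bool := if n % 2 = β then a n else b n

section

variable (p q : ℕ → ℕ → ℕ) (β : ℕ) (s : List Bool → Bool)

/-- The opponent of `β` makes no errors. -/
def Strict (x : ℕ → Bool) : Prop :=
  (∀ k n, k % 2 ≠ β → x (q k n) = !x (p k n)) ∧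
    ∀ m, m % 2 ≠ β → (∀ k n, m ≠ p k n ∧ m ≠ q k n) → x m = false

/-- `β` follows `s` and the opponent makes no errors. -/
def Run (x : ℕ → Bool) : Prop :=
  (∀ n, x (2 * n + β) = s (hist x (2 * n + β))) ∧ Strict p q β x

/-- A run through `h` in which the later votes of the opponent are as in `w`. -/
def Compat (w h : List Bool) (x : ℕ → Bool) : Prop :=
  Run p q β s x ∧ pre x h.length = h ∧
    ∀ k < w.length, k % 2 ≠ β → ∀ n, h.length ≤ p k n → x (p k n) = w.getD k false

end

variable {p q : ℕ → ℕ → ℕ} {β : ℕ} {s : List Bool → Bool}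

theorem pre_agree {x y : ℕ → Bool} {n : ℕ} (h : pre x n = pre y n) : ∀ i < n, x i = y i := by
  intro i hi
  have h1 := congrArg (fun L : List Bool => L.getD i false) h
  simpa only [pre_getD _ _ _ _ hi] using h1

theorem pre_agree' {x y : ℕ → Bool} {n : ℕ} (h : ∀ i < n, x i = y i) : pre x n = pre y n :=
  List.map_congr_left fun i hi => h i (List.mem_range.1 hi)

theorem isClosed_compat (w h : List Bool) : IsClosed {x | Compat p q β s w h x} := by
  have e : {x | Compat p q β s w h x} =
      ((⋂ n, {x : ℕ → Bool | x (2 * n + β) = s (hist x (2 * n + β))}) ∩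
      ((⋂ z : ℕ × ℕ, {x : ℕ → Bool | z.1 % 2 ≠ β → x (q z.1 z.2) = !x (p z.1 z.2)}) ∩
      (⋂ m, {x : ℕ → Bool | m % 2 ≠ β → (∀ k n, m ≠ p k n ∧ m ≠ q k n) → x m = false}))) ∩
      ({x : ℕ → Bool | pre x h.length = h} ∩
      ⋂ z : ℕ × ℕ, {x : ℕ → Bool | z.1 < w.length → z.1 % 2 ≠ β → h.length ≤ p z.1 z.2 →
        x (p z.1 z.2) = w.getD z.1 false}) := by
    ext x
    simp only [Compat, Run, Strict, mem_ofPred_eq, mem_inter_iff, mem_iInter, Prod.forall]
    constructor
    · rintro ⟨⟨h1, h2, h3⟩, h4, h5⟩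
      exact ⟨⟨h1, h2, h3⟩, h4, fun k n hk hk' => h5 k hk hk' n⟩
    · rintro ⟨⟨h1, h2, h3⟩, h4, h5⟩
      exact ⟨⟨h1, h2, h3⟩, h4, fun k hk hk' n => h5 k n hk hk'⟩
  rw [e]
  refine IsClosed.inter (IsClosed.inter (isClosed_iInter fun n => ?_) (IsClosed.inter
    (isClosed_iInter fun z => ?_) (isClosed_iInter fun m => ?_))) (IsClosed.inter ?_
    (isClosed_iInter fun z => ?_))
  · refine isClosed_of_dep (2 * n + β + 1) fun x y hxy hx => ?_
    simp only [mem_ofPred_eq, hist_eq_pre] at hx ⊢
    rw [← hxy _ (by omega), hx, pre_agree' fun i hi => hxy i (by omega)]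
  · refine isClosed_of_dep (max (q z.1 z.2) (p z.1 z.2) + 1) fun x y hxy hx hz => ?_
    rw [← hxy _ (by omega), hx hz, hxy (p z.1 z.2) (by omega)]
  · refine isClosed_of_dep (m + 1) fun x y hxy hx h1 h2 => ?_
    rw [← hxy _ (by omega), hx h1 h2]
  · refine isClosed_of_dep h.length fun x y hxy hx => ?_
    simp only [mem_ofPred_eq] at hx ⊢
    rw [← pre_agree' hxy, hx]
  · refine isClosed_of_dep (p z.1 z.2 + 1) fun x y hxy hx h1 h2 h3 => ?_
    rw [← hxy _ (by omega), hx h1 h2 h3]

/-- Extending the finite play and the list. -/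
theorem Compat.of_later {w w' h h' : List Bool} {x0 x : ℕ → Bool}
    (h0 : Compat p q β s w h x0) (hl : h.length ≤ h'.length) (hx0 : pre x0 h'.length = h')
    (hx : Compat p q β s w' h' x) (hw : w <+: w') : Compat p q β s w h x := by
  have hag : ∀ i < h'.length, x i = x0 i := pre_agree (by rw [hx.2.1, hx0])
  refine ⟨hx.1, ?_, fun k hk hk' n hn => ?_⟩
  · rw [pre_agree' fun i hi => hag i (by omega)]
    exact h0.2.1
  · by_cases h1 : p k n < h'.length
    · rw [hag _ h1]
      exact h0.2.2 k hk hk' n hn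
    · rw [hx.2.2 k (lt_of_lt_of_le hk hw.length_le) hk' n (not_lt.1 h1)]
      obtain ⟨t, rfl⟩ := hw
      rw [List.getD_append _ _ _ _ hk]

/-- The condition `errors at most N` in a closed form. -/
def LegN (p q : ℕ → ℕ → ℕ) (β N : ℕ) (y : ℕ → Bool) : Prop :=
  (∀ k n, k % 2 = β → N < q k n → y (q k n) ≠ y (p k n)) ∧
    ∀ m, N < m → m % 2 = β → (∀ k n, m ≠ p k n ∧ m ≠ q k n) → y m ≠ true

theorem legal_iff {G : Subgroup (Equiv.Perm ℕ)} (hs : Slots G p q) {y : ℕ → Bool} :
    Legal p q β y ↔ ∃ N, LegN p q β N y := by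
  constructor
  · intro h
    obtain ⟨M, hM⟩ := h.bddAbove
    refine ⟨M, fun k n hk hn h1 => ?_, fun m hm hm' h1 h2 => ?_⟩
    · have := hM (show q k n ∈ Errors p q β y from ⟨by rw [hs.qpar, hk], Or.inl ⟨k, n, rfl, h1⟩⟩)
      omega
    · have := hM (show m ∈ Errors p q β y from ⟨hm', Or.inr ⟨h1, h2⟩⟩)
      omega
  · rintro ⟨N, h1, h2⟩
    refine (finite_le_nat N).subset ?_
    rintro m ⟨hm, h3⟩
    by_contra h4
    have h4 : N < m := not_le.1 h4
    rcases h3 with ⟨k, n, rfl, h5⟩ | ⟨h5, h6⟩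
    · exact h1 k n (by rw [← hs.qpar k n, hm]) h4 h5
    · exact h2 m h4 hm h5 h6

theorem isClosed_good (g : Equiv.Perm ℕ) (N l : ℕ) (b : Bool) :
    IsClosed {x : ℕ → Bool | LegN p q β N (x ∘ g) ∧ ∀ n ≥ N, (x ∘ g) (p l n) = b} := by
  have e : {x : ℕ → Bool | LegN p q β N (x ∘ g) ∧ ∀ n ≥ N, (x ∘ g) (p l n) = b} =
      ((⋂ z : ℕ × ℕ, {x : ℕ → Bool | z.1 % 2 = β → N < q z.1 z.2 →
        x (g (q z.1 z.2)) ≠ x (g (p z.1 z.2))}) ∩
      (⋂ m, {x : ℕ → Bool | N < m → m % 2 = β → (∀ k n, m ≠ p k n ∧ m ≠ q k n) →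
        x (g m) ≠ true})) ∩
      ⋂ n, {x : ℕ → Bool | n ≥ N → x (g (p l n)) = b} := by
    ext x
    simp only [LegN, mem_ofPred_eq, mem_inter_iff, mem_iInter, Prod.forall, Function.comp]
  rw [e]
  refine IsClosed.inter (IsClosed.inter (isClosed_iInter fun z => ?_)
    (isClosed_iInter fun m => ?_)) (isClosed_iInter fun n => ?_)
  · refine isClosed_of_dep (max (g (q z.1 z.2)) (g (p z.1 z.2)) + 1) fun x y hxy hx h1 h2 => ?_
    rw [← hxy _ (by omega), ← hxy (g (p z.1 z.2)) (by omega)]
    exact hx h1 h2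
  · refine isClosed_of_dep (g m + 1) fun x y hxy hx h1 h2 h3 => ?_
    rw [← hxy _ (by omega)]
    exact hx h1 h2 h3
  · refine isClosed_of_dep (g (p l n) + 1) fun x y hxy hx h1 => ?_
    rw [← hxy _ (by omega)]
    exact hx h1

open Classical in
/-- The rule for later moves. -/
noncomputable def rule (p q : ℕ → ℕ → ℕ) (β : ℕ) (s : List Bool → Bool) (w : List Bool) (m : ℕ)
    (L : List Bool) : Bool :=
  if m % 2 = β then s L
  else if h : ∃ z : ℕ × ℕ, m = q z.1 z.2 then !(L.getD (p h.choose.1 h.choose.2) false)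
  else if h : ∃ z : ℕ × ℕ, m = p z.1 z.2 then w.getD h.choose.1 false
  else false

theorem exists_compat {G : Subgroup (Equiv.Perm ℕ)} (hs : Slots G p q) (hβ : β < 2)
    (w : List Bool) {n0 : ℕ} {x0 : ℕ → Bool} (h0 : n0 = 0 ∨ Run p q β s x0) :
    ∃ x, Compat p q β s w (pre x0 n0) x := by
  classical
  obtain ⟨x, h1, h2⟩ := exists_play (rule p q β s w) x0 n0
  have h0' : 0 < n0 → Run p q β s x0 := fun h => h0.resolve_left (by omega)
  refine ⟨x, ⟨fun n => ?_, fun k n hk => ?_, fun m hm hm' => ?_⟩, ?_, fun k hk hk' n hn => ?_⟩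
  · by_cases h3 : 2 * n + β < n0
    · rw [h1 _ h3, (h0' (by omega)).1 n, hist_eq_pre, hist_eq_pre]
      exact congrArg s (pre_agree' fun i hi => (h1 i (by omega)).symm)
    · rw [h2 _ (not_lt.1 h3), rule, if_pos]
      · rfl
      · omega
  · have h4 := hs.pltq k n
    by_cases h3 : q k n < n0
    · rw [h1 _ h3, (h0' (by omega)).2.1 k n hk, h1 _ (by omega)]
    · rw [h2 _ (not_lt.1 h3), rule, if_neg (by rwa [hs.qpar]),
        dif_pos (⟨(k, n), rfl⟩ : ∃ z : ℕ × ℕ, q k n = q z.1 z.2)]
      generalize_proofs h5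
      have h6 := h5.choose_spec
      obtain ⟨h7, h8⟩ := hs.qinj _ _ _ _ h6
      rw [← h7, ← h8, pre_getD _ _ _ _ h4]
  · by_cases h3 : m < n0
    · rw [h1 _ h3, (h0' (by omega)).2.2 m hm hm']
    · rw [h2 _ (not_lt.1 h3), rule, if_neg hm, dif_neg, dif_neg]
      · rintro ⟨z, hz⟩
        exact (hm' _ _).1 hz
      · rintro ⟨z, hz⟩
        exact (hm' _ _).2 hz
  · rw [length_pre]
    exact pre_agree' h1
  · rw [length_pre] at hn
    rw [h2 _ hn, rule, if_neg (by rwa [hs.cols.par]), dif_neg,
      dif_pos (⟨(k, n), rfl⟩ : ∃ z : ℕ × ℕ, p k n = p z.1 z.2)]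
    · generalize_proofs h5
      have h6 := h5.choose_spec
      rw [← (hs.pinj _ _ _ _ h6).1]
    · rintro ⟨z, hz⟩
      exact hs.pneq _ _ _ _ hz

/-- The invariant of the strategy. -/
def PP (G : Subgroup (Equiv.Perm ℕ)) (p q : ℕ → ℕ → ℕ) (β : ℕ) (s : List Bool → Bool)
    (w h : List Bool) : Prop :=
  (∃ x, Compat p q β s w h x) ∧ ∀ k < w.length, k % 2 = β → ∃ g ∈ G, ∀ x, Compat p q β s w h x →
    Legal p q β (x ∘ g) ∧ Settled p (x ∘ g) k (w.getD k false)

/-- The successor relation of the strategy. -/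
def RR (p q : ℕ → ℕ → ℕ) (β : ℕ) (s : List Bool → Bool) (w h h' : List Bool) : Prop :=
  h.length < h'.length ∧ ∃ x, Compat p q β s w h x ∧ pre x h'.length = h'

theorem Compat.settled {w h : List Bool} {x : ℕ → Bool} (hp : Cols p)
    (hx : Compat p q β s w h x) {k : ℕ} (hk : k < w.length) (hk' : k % 2 ≠ β) :
    Settled p x k (w.getD k false) :=
  ⟨h.length, fun n hn => hx.2.2 k hk hk' n (hn.trans (hp.le k n))⟩

theorem settled_mx {x y : ℕ → Bool} (hp : Cols p) {k : ℕ} {b : Bool} (hk : k % 2 = β) :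
    Settled p (mx β x y) k b ↔ Settled p x k b := by
  refine exists_congr fun N => forall₂_congr fun n _ => ?_
  rw [mx, if_pos (by rw [hp.par, hk])]

theorem settled_mx' {x y : ℕ → Bool} (hp : Cols p) {k : ℕ} {b : Bool} (hk : k % 2 ≠ β) :
    Settled p (mx β x y) k b ↔ Settled p y k b := by
  refine exists_congr fun N => forall₂_congr fun n _ => ?_
  rw [mx, if_neg (by rwa [hp.par])]

theorem wins_back {G : Subgroup (Equiv.Perm ℕ)} [Countable G] (hs : Slots G p q) (hβ : β < 2)
    {A : Set (ℕ → Bool)}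
    (hyp : ∀ x, Run p q β s x → ∃ g ∈ G, Legal p q β (x ∘ g) ∧ mx β (x ∘ g) x ∈ VB p β A)
    (hu : ∀ x, Run p q β s x → ∀ g ∈ G, ∀ g' ∈ G, Legal p q β (x ∘ g) → Legal p q β (x ∘ g') →
      ∀ k b b', k % 2 = β → Settled p (x ∘ g) k b → Settled p (x ∘ g') k b' → b = b') :
    Wins β A := by
  refine wins_of_memory (PP G p q β s) (RR p q β s) [] ?_ ?_ ?_ ?_
  · obtain ⟨x, hx⟩ := exists_compat (s := s) hs hβ [] (n0 := 0) (x0 := fun _ => false)
      (Or.inl rfl)
    exact ⟨⟨x, hx⟩, fun k hk => absurd hk (by simp)⟩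
  · rintro w h hw ⟨⟨x1, hx1⟩, hP⟩
    obtain ⟨⟨⟨g, hg⟩, N, b⟩, x0, hx0, n, hn⟩ := baire_closed (ι := G × ℕ × Bool)
      (isClosed_compat (p := p) (q := q) (β := β) (s := s) w h) ⟨x1, hx1⟩
      (C := fun i => {x : ℕ → Bool | LegN p q β i.2.1 (x ∘ (i.1 : Equiv.Perm ℕ)) ∧
        ∀ n ≥ i.2.1, (x ∘ (i.1 : Equiv.Perm ℕ)) (p w.length n) = i.2.2})
      (fun i => isClosed_good _ _ _ _) (by
        intro x hx
        obtain ⟨g, hg, h1, h2⟩ := hyp x hx.1
        obtain ⟨N, hN⟩ := (legal_iff hs).1 h1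
        have h3 : ∃ b, Settled p (mx β (x ∘ g) x) w.length b := by
          rcases h2 with ⟨v, -, h2⟩ | ⟨k, hk, h2, h3⟩
          · exact ⟨_, h2 _⟩
          · rcases lt_trichotomy k w.length with h4 | h4 | h4
            · exact absurd ((settled_mx' hs.cols hk).2 (hx.settled hs.cols h4 hk)) (h2 _)
            · exact absurd (h4 ▸ hw) hk
            · exact h3 _ h4
        obtain ⟨b, hb⟩ := h3
        obtain ⟨N', hN'⟩ := (settled_mx hs.cols hw).1 hb
        exact ⟨(⟨g, hg⟩, max N N', b), ⟨fun k n hk hn => hN.1 k n hk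
          (lt_of_le_of_lt (le_max_left N N') hn), fun m hm => hN.2 m
          (lt_of_le_of_lt (le_max_left N N') hm)⟩, fun n hn => hN' n
          ((le_max_right N N').trans hn)⟩)
    have hl : h.length ≤ max n (h.length + 1) := by omega
    have hpre : pre x0 (pre x0 (max n (h.length + 1))).length =
        pre x0 (max n (h.length + 1)) := by rw [length_pre]
    have hx0' : Compat p q β s w h x0 := hx0
    have hlater : ∀ x, Compat p q β s (w ++ [b]) (pre x0 (max n (h.length + 1))) x →
        Compat p q β s w h x := fun x hx =>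
      hx0'.of_later (by rw [length_pre]; omega) hpre hx (List.prefix_append _ _)
    refine ⟨b, pre x0 (max n (h.length + 1)), ⟨⟨x0, hx0'.1, hpre, ?_⟩, ?_⟩, ?_, x0, hx0', hpre⟩
    · intro k hk hk' m hm
      rw [List.length_append, List.length_singleton] at hk
      have h1 : k < w.length := by
        rcases Nat.lt_or_ge k w.length with h1 | h1
        · exact h1
        · exact absurd (show k % 2 = β by
            have : k = w.length := by omega
            rw [this, hw]) hk'
      rw [List.getD_append _ _ _ _ h1]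
      rw [length_pre] at hm
      exact hx0'.2.2 k h1 hk' m (by omega)
    · intro k hk hk'
      rw [List.length_append, List.length_singleton] at hk
      rcases Nat.lt_or_ge k w.length with h1 | h1
      · obtain ⟨g', hg', h2⟩ := hP k h1 hk'
        refine ⟨g', hg', fun x hx => ?_⟩
        rw [List.getD_append _ _ _ _ h1]
        exact h2 x (hlater x hx)
      · have h2 : k = w.length := by omega
        subst h2
        refine ⟨g, hg, fun x hx => ?_⟩
        have h3 := hn x (hlater x hx) (by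
          have h4 := hx.2.1
          rw [length_pre] at h4
          intro j hj
          exact pre_agree h4 j (by omega))
        refine ⟨(legal_iff hs).2 ⟨N, h3.1⟩, N, fun m hm => ?_⟩
        rw [h3.2 m hm]
        simp
    · rw [length_pre]
      omega
  · rintro w h hw ⟨⟨x1, hx1⟩, hP⟩ b
    obtain ⟨x, hx⟩ := exists_compat (s := s) hs hβ (w ++ [b]) (n0 := h.length + 1) (x0 := x1)
      (Or.inr hx1.1)
    have hpre : pre x1 (pre x1 (h.length + 1)).length = pre x1 (h.length + 1) := by
      rw [length_pre]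
    have hlater : ∀ x, Compat p q β s (w ++ [b]) (pre x1 (h.length + 1)) x →
        Compat p q β s w h x := fun x hx =>
      hx1.of_later (by rw [length_pre]; omega) hpre hx (List.prefix_append _ _)
    refine ⟨pre x1 (h.length + 1), ⟨⟨x, hx⟩, fun k hk hk' => ?_⟩, by rw [length_pre]; omega, x1,
      hx1, hpre⟩
    rw [List.length_append, List.length_singleton] at hk
    have h1 : k < w.length := by
      rcases Nat.lt_or_ge k w.length with h1 | h1
      · exact h1
      · exact absurd (show w.length % 2 = β by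
          have : k = w.length := by omega
          rw [← this, hk']) hw
    obtain ⟨g', hg', h2⟩ := hP k h1 hk'
    refine ⟨g', hg', fun x hx => ?_⟩
    rw [List.getD_append _ _ _ _ h1]
    exact h2 x (hlater x hx)
  · intro y h hP hR
    have hlen : ∀ n, n ≤ (h n).length := by
      intro n
      induction n with
      | zero => omega
      | succ n ih =>
        have := (hR n).1
        omega
    have hmono : ∀ n m, n ≤ m → (h n).length ≤ (h m).length := by
      intro n m hnm
      induction hnm with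
      | refl => exact le_rfl
      | step _ ih => exact ih.trans (hR _).1.le
    have hpref : ∀ n m, n ≤ m → ∀ x, pre x (h m).length = h m → pre x (h n).length = h n := by
      intro n m hnm x
      induction hnm with
      | refl => exact id
      | step hnm ih =>
        intro hx
        refine ih ?_
        obtain ⟨h1, x0, hx0, h2⟩ := hR _
        have h3 : ∀ i < (h (_ + 1)).length, x i = x0 i := pre_agree (by rw [hx, h2])
        rw [pre_agree' fun i hi => h3 i (lt_trans hi h1)]
        exact hx0.2.1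
    let x : ℕ → Bool := fun i => (h (i + 1)).getD i false
    have hx : ∀ n, pre x (h n).length = h n := by
      intro n
      obtain ⟨x0, hx0⟩ := (hP n).1
      refine (pre_agree' fun i hi => ?_).trans hx0.2.1
      have h1 : i < (h (i + 1)).length := hlen (i + 1)
      simp only [x]
      rcases le_total n (i + 1) with h2 | h2
      · obtain ⟨x2, hx2⟩ := (hP (i + 1)).1
        have h3 := hpref n (i + 1) h2 x2 hx2.2.1
        have h4 : ∀ i < (h n).length, x2 i = x0 i := pre_agree (by rw [h3, hx0.2.1])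
        rw [← h4 i hi, ← hx2.2.1, pre_getD _ _ _ _ h1]
      · have h3 := hpref (i + 1) n h2 x0 hx0.2.1
        rw [← h3, pre_getD _ _ _ _ h1]
    have hrun : Run p q β s x := by
      have hap : ∀ m, ∃ x0, Run p q β s x0 ∧ ∀ i ≤ m, x i = x0 i := by
        intro m
        obtain ⟨x0, hx0⟩ := (hP (m + 1)).1
        refine ⟨x0, hx0.1, fun i hi => pre_agree ((hx (m + 1)).trans hx0.2.1.symm) i ?_⟩
        have := hlen (m + 1)
        omega
      refine ⟨fun n => ?_, fun k n hk => ?_, fun m hm hm' => ?_⟩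
      · obtain ⟨x0, h1, h2⟩ := hap (2 * n + β)
        rw [h2 _ le_rfl, h1.1 n, hist_eq_pre, hist_eq_pre]
        exact congrArg s (pre_agree' fun i hi => (h2 i (by omega)).symm)
      · obtain ⟨x0, h1, h2⟩ := hap (q k n)
        rw [h2 _ le_rfl, h1.2.1 k n hk, h2 _ (hs.pltq k n).le]
      · obtain ⟨x0, h1, h2⟩ := hap m
        rw [h2 _ le_rfl, h1.2.2 m hm hm']
    have hcomp : ∀ n, Compat p q β s (pre y n) (h n) x := by
      intro n
      refine ⟨hrun, hx n, fun k hk hk' m hm => ?_⟩
      rw [length_pre] at hk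
      have key : ∀ N, n ≤ N → p k m < (h N).length → x (p k m) = (pre y n).getD k false := by
        intro N hN
        induction hN with
        | refl => intro h1; omega
        | @step N hN ih =>
          intro h1
          by_cases h2 : p k m < (h N).length
          · exact ih h2
          · obtain ⟨-, x0, hx0, h3⟩ := hR N
            have hN' : n ≤ N := hN
            rw [pre_agree ((hx (N + 1)).trans h3.symm) _ h1,
              hx0.2.2 k (by rw [length_pre]; omega) hk' m (not_lt.1 h2),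
              pre_getD _ _ _ _ (by omega), pre_getD _ _ _ _ hk]
      have h4 := hlen (p k m + 1)
      have h5 := hmono (p k m + 1) (max n (p k m + 1)) (le_max_right _ _)
      exact key (max n (p k m + 1)) (le_max_left _ _) (by omega)
    have hopp : ∀ k, k % 2 ≠ β → Settled p x k (y k) := by
      intro k hk
      have h1 := (hcomp (k + 1)).settled hs.cols (k := k) (by rw [length_pre]; omega) hk
      rwa [pre_getD _ _ _ _ (by omega)] at h1
    obtain ⟨g, hg, h1, h2⟩ := hyp x hrun
    rcases h2 with ⟨v, hv, h2⟩ | ⟨k, hk, h2, -⟩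
    · have hvy : v = y := by
        funext k
        by_cases hk : k % 2 = β
        · obtain ⟨g', hg', h3⟩ := (hP (k + 1)).2 k (by rw [length_pre]; omega) hk
          obtain ⟨h4, h5⟩ := h3 x (hcomp (k + 1))
          rw [pre_getD _ _ _ _ (by omega)] at h5
          exact hu x hrun g hg g' hg' h1 h4 k _ _ hk ((settled_mx hs.cols hk).1 (h2 k)) h5
        · exact ((settled_mx' hs.cols hk).1 (h2 k)).unique (hopp k hk)
      rwa [← hvy]
    · exact absurd ((settled_mx' hs.cols hk).2 (hopp k hk)) (h2 _)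

end Pool.Agent.Helper89K9.TG
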