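import Pool.Agent.Helper89K9.TG.Inv

set_option autoImplicit false

namespace Pool.Agent.Helper89K9.TG

open Pool.Agent.Helper227 Pool.Agent.H685R3 Pool.Agent.Y588.VT Set Topology

theorem isClosed_of_dep {S : Set (ℕ → Bool)} (N : ℕ)
    (h : ∀ x y : ℕ → Bool, (∀ i < N, x i = y i) → x ∈ S → y ∈ S) : IsClosed S := by
  rw [← isOpen_compl_iff, isOpen_iff_mem_nhds]
  intro x hx
  refine Filter.mem_of_superset ((PiNat.isOpen_cylinder (fun _ => Bool) x N).mem_nhds
    (PiNat.self_mem_cylinder x N)) fun y hy hyS => hx ?_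
  exact h y x hy hyS

theorem baire_closed {ι : Type*} [Countable ι] {X : Set (ℕ → Bool)} (hX : IsClosed X)
    (hne : X.Nonempty) {C : ι → Set (ℕ → Bool)} (hC : ∀ i, IsClosed (C i))
    (hU : ∀ x ∈ X, ∃ i, x ∈ C i) :
    ∃ i, ∃ x ∈ X, ∃ n, ∀ y ∈ X, (∀ j < n, y j = x j) → y ∈ C i := by
  have : CompactSpace X := isCompact_iff_compactSpace.1 hX.isCompact
  have : Nonempty X := hne.to_subtype
  obtain ⟨i, x, hx⟩ := nonempty_interior_of_iUnion_of_closed (X := X)
    (f := fun i => (Subtype.val ⁻¹' C i : Set X)) (fun i => (hC i).preimage continuous_subtype_val)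
    (by
      rw [eq_univ_iff_forall]
      intro x
      obtain ⟨i, hi⟩ := hU x.1 x.2
      exact mem_iUnion.2 ⟨i, hi⟩)
  obtain ⟨t, ht, hto, hxt⟩ := mem_interior.1 hx
  obtain ⟨U, hUo, rfl⟩ := isOpen_induced_iff.1 hto
  obtain ⟨V, ⟨z, n, rfl⟩, hxV, hVU⟩ :=
    (PiNat.isTopologicalBasis_cylinders (fun _ => Bool)).exists_subset_of_mem_open hxt hUo
  refine ⟨i, x.1, x.2, n, fun y hy hyn => ht (a := ⟨y, hy⟩) ?_⟩
  refine hVU ?_
  have h := PiNat.mem_cylinder_iff_eq.1 hxV
  have h' : y ∈ PiNat.cylinder (x : ℕ → Bool) n := hyn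
  rw [h] at h'
  exact h'

/-- Plays following a rule from some time on. -/
theorem exists_play (f : ℕ → List Bool → Bool) (x0 : ℕ → Bool) (n0 : ℕ) :
    ∃ x : ℕ → Bool, (∀ m < n0, x m = x0 m) ∧ ∀ m ≥ n0, x m = f m (pre x m) := by
  let L : ℕ → List Bool := fun n => Nat.rec (pre x0 n0) (fun n L => L ++ [f (n0 + n) L]) n
  have hL : ∀ n, (L n).length = n0 + n := by
    intro n
    induction n with
    | zero => simp [L]
    | succ n ih =>
      show (L n ++ [f (n0 + n) (L n)]).length = _
      rw [List.length_append, ih]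
      rfl
  let x : ℕ → Bool := fun m => if m < n0 then x0 m else (L (m - n0 + 1)).getD m false
  have hp : ∀ n, pre x (n0 + n) = L n := by
    intro n
    induction n with
    | zero =>
      show pre x (n0 + 0) = pre x0 n0
      refine List.map_congr_left fun i hi => ?_
      rw [List.mem_range] at hi
      simp only [x]
      rw [if_pos (by omega)]
    | succ n ih =>
      rw [← Nat.add_assoc, pre_succ, ih]
      show L n ++ [x (n0 + n)] = L n ++ [f (n0 + n) (L n)]
      congr 2
      simp only [x]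
      rw [if_neg (by omega)]
      have h1 : n0 + n - n0 + 1 = n + 1 := by omega
      rw [h1]
      show (L n ++ [f (n0 + n) (L n)]).getD (n0 + n) false = _
      rw [List.getD_append_right _ _ _ _ (by rw [hL]), hL]
      simp
  refine ⟨x, fun m hm => by simp only [x]; rw [if_pos hm], fun m hm => ?_⟩
  obtain ⟨n, rfl⟩ := Nat.exists_eq_add_of_le hm
  have h1 := hp (n + 1)
  rw [← Nat.add_assoc, pre_succ, hp n] at h1
  have h2 : L (n + 1) = L n ++ [f (n0 + n) (L n)] := rfl
  rw [h2] at h1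
  have h3 := List.append_cancel_left h1
  rw [hp n]
  simpa using h3

end Pool.Agent.Helper89K9.TG
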