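import Pool.Agent.Y588.VT.Game

set_option autoImplicit false

namespace Pool.Agent.Helper89K9.TG

open Pool.Agent.Helper227 Pool.Agent.H685R3 Pool.Agent.Y588.VT

/-- The positions of player I (for `β = 0`) or of player II (for `β = 1`). -/
def side (β : ℕ) : Set ℕ := {n | n % 2 = β}

/-- `G` contains no `g`, `h` such that for one of the two players, if `S` is the set of the
positions of this player and `T` the set of those of the other one, the three sets `S`, `g(S)` and
`h(T)` are pairwise almost disjoint. -/
def Tight (G : Subgroup (Equiv.Perm ℕ)) : Prop :=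
  ∀ β < 2, ∀ g ∈ G, ∀ h ∈ G, ¬ ((side β ∩ g '' side β).Finite ∧
    (side β ∩ h '' side (1 - β)).Finite ∧ (g '' side β ∩ h '' side (1 - β)).Finite)

/-- `A` is closed under rearranging the positions by the elements of `G`. -/
def GroupInvariant (G : Subgroup (Equiv.Perm ℕ)) (A : Set (ℕ → Bool)) : Prop :=
  ∀ g ∈ G, ∀ x, x ∘ g ∈ A ↔ x ∈ A

/-- The errors of the player moving at the positions congruent to `β` modulo 2 in the play `y`:
the positions `q k n` at which `y` has the same value as at `p k n`, and the ones outside all
`p k n` and `q k n`. -/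
def Errors (p q : ℕ → ℕ → ℕ) (β : ℕ) (y : ℕ → Bool) : Set ℕ :=
  {m | m % 2 = β ∧ ((∃ k n, m = q k n ∧ y m = y (p k n)) ∨
    ((∀ k n, m ≠ p k n ∧ m ≠ q k n) ∧ y m = true))}

/-- The player moving at the positions congruent to `β` modulo 2 makes finitely many errors. -/
def Legal (p q : ℕ → ℕ → ℕ) (β : ℕ) (y : ℕ → Bool) : Prop := (Errors p q β y).Finite

/-- The play with the moves of player I taken from `a` and those of player II taken from `b`. -/
def mix (a b : ℕ → Bool) (n : ℕ) : Bool := if n % 2 = 0 then a n else b n

/-- The coded form of `A`: for some `g` in `G` the rearranged play `x ∘ g` is legal for player I,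
and whenever moreover `x ∘ h` is legal for player II (`h` in `G`), then the play with the moves of
player I taken from `x ∘ g` and those of player II taken from `x ∘ h` is in the voting set of
`A`. -/
def Coded (G : Subgroup (Equiv.Perm ℕ)) (p q : ℕ → ℕ → ℕ) (A : Set (ℕ → Bool)) :
    Set (ℕ → Bool) :=
  {x | ∃ g ∈ G, Legal p q 0 (x ∘ g) ∧
    ∀ h ∈ G, Legal p q 1 (x ∘ h) → mix (x ∘ g) (x ∘ h) ∈ Voting p A}

end Pool.Agent.Helper89K9.TG
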