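import Pool.Agent.Helper89K9.TG.Defs

set_option autoImplicit false

namespace Pool.Agent.Helper89K9.TG

open Pool.Agent.Helper227 Pool.Agent.H685R3 Pool.Agent.Y588.VT Set Filter Topology

/-- The natural density of `S` is one half. -/
def HalfDense (S : Set ℕ) : Prop :=
  Tendsto (fun n : ℕ => ((S ∩ Iio n).ncard : ℝ) / n) atTop (𝓝 (1 / 2))

/-- The permutation moves all numbers by a bounded distance. -/
def BoundedDisplacement (g : Equiv.Perm ℕ) : Prop := ∃ C, ∀ n, g n ≤ n + C ∧ n ≤ g n + C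

theorem card_le {A B C : Set ℕ} (h1 : (A ∩ B).Finite) (h2 : (A ∩ C).Finite) (h3 : (B ∩ C).Finite) :
    ∃ K : ℕ, ∀ n : ℕ, (A ∩ Iio n).ncard + (B ∩ Iio n).ncard + (C ∩ Iio n).ncard ≤ n + K := by
  refine ⟨(A ∩ B).ncard + ((A ∩ C).ncard + (B ∩ C).ncard), fun n => ?_⟩
  have fi : (Iio n : Set ℕ).Finite := finite_Iio n
  have fA : (A ∩ Iio n).Finite := fi.subset inter_subset_right
  have fB : (B ∩ Iio n).Finite := fi.subset inter_subset_right
  have fC : (C ∩ Iio n).Finite := fi.subset inter_subset_right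
  have e1 := ncard_union_add_ncard_inter (A ∩ Iio n) (B ∩ Iio n) fA fB
  have e2 := ncard_union_add_ncard_inter ((A ∩ Iio n) ∪ (B ∩ Iio n)) (C ∩ Iio n) (fA.union fB) fC
  have l1 : ((A ∩ Iio n) ∩ (B ∩ Iio n)).ncard ≤ (A ∩ B).ncard :=
    ncard_le_ncard (fun m hm => ⟨hm.1.1, hm.2.1⟩) h1
  have l2 : (((A ∩ Iio n) ∪ (B ∩ Iio n)) ∩ (C ∩ Iio n)).ncard ≤
      (A ∩ C).ncard + (B ∩ C).ncard := by
    refine (ncard_le_ncard ?_ (h2.union h3)).trans (ncard_union_le _ _)
    rintro m ⟨hm | hm, hm'⟩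
    · exact Or.inl ⟨hm.1, hm'.1⟩
    · exact Or.inr ⟨hm.1, hm'.1⟩
  have l3 : ((A ∩ Iio n) ∪ (B ∩ Iio n) ∪ (C ∩ Iio n)).ncard ≤ n := by
    have h5 : (Iio n : Set ℕ).ncard = n := by simp
    refine le_trans (ncard_le_ncard ?_ fi) h5.le
    rintro m ((hm | hm) | hm)
    · exact hm.2
    · exact hm.2
    · exact hm.2
  omega

theorem not_three {A B C : Set ℕ} (hA : HalfDense A) (hB : HalfDense B) (hC : HalfDense C)
    (h1 : (A ∩ B).Finite) (h2 : (A ∩ C).Finite) (h3 : (B ∩ C).Finite) : False := by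
  obtain ⟨K, hK⟩ := card_le h1 h2 h3
  have e1 := (hA.add hB).add hC
  have e2 : Tendsto (fun n : ℕ => 1 + (K : ℝ) / n) atTop (𝓝 (1 + 0)) :=
    tendsto_const_nhds.add (tendsto_const_div_atTop_nhds_zero_nat (K : ℝ))
  have h := le_of_tendsto_of_tendsto e1 e2 (by
    filter_upwards [eventually_gt_atTop 0] with n hn
    have hn' : (0 : ℝ) < n := by exact_mod_cast hn
    have h4 : (((A ∩ Iio n).ncard + (B ∩ Iio n).ncard + (C ∩ Iio n).ncard : ℕ) : ℝ) ≤
        ((n + K : ℕ) : ℝ) := by exact_mod_cast hK n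
    push_cast at h4
    rw [← add_div, ← add_div, div_le_iff₀ hn', add_mul, div_mul_cancel₀ _ hn'.ne']
    linarith)
  norm_num at h

theorem tight_of_density {G : Subgroup (Equiv.Perm ℕ)}
    (hG : ∀ g ∈ G, ∀ β < 2, HalfDense (g '' side β)) : Tight G := by
  rintro β hβ g hg h hh ⟨h1, h2, h3⟩
  have h4 := hG 1 G.one_mem β hβ
  have e : ((1 : Equiv.Perm ℕ) : ℕ → ℕ) '' side β = side β := by
    ext m
    simp
  rw [e] at h4
  exact not_three h4 (hG g hg β hβ) (hG h hh (1 - β) (by omega)) h1 h2 h3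

theorem card_side {β : ℕ} (hβ : β < 2) (k : ℕ) :
    k / 2 ≤ (side β ∩ Iio k).ncard ∧ (side β ∩ Iio k).ncard ≤ (k + 1) / 2 := by
  have hinj : Function.Injective fun i : ℕ => 2 * i + β := fun a b h => by
    simp only at h
    omega
  have c : ∀ j : ℕ, ((fun i : ℕ => 2 * i + β) '' Iio j).ncard = j := by
    intro j
    rw [ncard_image_of_injective _ hinj]
    simp
  constructor
  · refine (c (k / 2)).ge.trans (ncard_le_ncard ?_ ((finite_Iio k).subset inter_subset_right))
    rintro m ⟨i, hi, rfl⟩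
    have hi' : i < k / 2 := hi
    refine ⟨?_, ?_⟩
    · show (2 * i + β) % 2 = β
      omega
    · show 2 * i + β < k
      omega
  · refine le_trans (ncard_le_ncard ?_ ((finite_Iio ((k + 1) / 2)).image fun i : ℕ => 2 * i + β))
      (c _).le
    rintro m ⟨hm, hk⟩
    change m % 2 = β at hm
    change m < k at hk
    refine ⟨m / 2, ?_, ?_⟩
    · show m / 2 < (k + 1) / 2
      omega
    · show 2 * (m / 2) + β = m
      omega

theorem halfDense_of_bounded {g : Equiv.Perm ℕ} (hg : BoundedDisplacement g) {β : ℕ}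
    (hβ : β < 2) : HalfDense (g '' side β) := by
  obtain ⟨C, hC⟩ := hg
  have fin : ∀ n, (g '' side β ∩ Iio n).Finite := fun n =>
    (finite_Iio n).subset inter_subset_right
  have hl : ∀ n, (n - C) / 2 ≤ (g '' side β ∩ Iio n).ncard := by
    intro n
    refine (card_side hβ (n - C)).1.trans ?_
    rw [← ncard_image_of_injective _ g.injective]
    refine ncard_le_ncard ?_ (fin n)
    rintro _ ⟨m, ⟨hm, hm'⟩, rfl⟩
    refine ⟨⟨m, hm, rfl⟩, ?_⟩
    have h1 := (hC m).1
    change m < n - C at hm'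
    show g m < n
    omega
  have hu : ∀ n, (g '' side β ∩ Iio n).ncard ≤ (n + C + 1) / 2 := by
    intro n
    refine le_trans ?_ (card_side hβ (n + C)).2
    rw [← ncard_image_of_injective (side β ∩ Iio (n + C)) g.injective]
    refine ncard_le_ncard ?_ (((finite_Iio (n + C)).subset inter_subset_right).image g)
    rintro _ ⟨⟨m, hm, rfl⟩, hm'⟩
    refine ⟨m, ⟨hm, ?_⟩, rfl⟩
    have h1 := (hC m).2
    change g m < n at hm'
    show m < n + C
    omega
  have e1 : Tendsto (fun n : ℕ => (1 / 2 : ℝ) - (C + 2 : ℝ) / n) atTop (𝓝 (1 / 2 - 0)) :=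
    tendsto_const_nhds.sub (tendsto_const_div_atTop_nhds_zero_nat (C + 2 : ℝ))
  have e2 : Tendsto (fun n : ℕ => (1 / 2 : ℝ) + (C + 2 : ℝ) / n) atTop (𝓝 (1 / 2 + 0)) :=
    tendsto_const_nhds.add (tendsto_const_div_atTop_nhds_zero_nat (C + 2 : ℝ))
  rw [sub_zero] at e1
  rw [add_zero] at e2
  refine tendsto_of_tendsto_of_tendsto_of_le_of_le' e1 e2 ?_ ?_
  · filter_upwards [eventually_gt_atTop 0] with n hn
    have hn' : (0 : ℝ) < n := by exact_mod_cast hn
    rw [le_div_iff₀ hn', sub_mul, div_mul_cancel₀ _ hn'.ne']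
    have h1 : n ≤ 2 * (g '' side β ∩ Iio n).ncard + 2 * C + 2 := by
      have := hl n
      omega
    have h2 : (n : ℝ) ≤ 2 * ((g '' side β ∩ Iio n).ncard : ℝ) + 2 * C + 2 := by exact_mod_cast h1
    linarith
  · filter_upwards [eventually_gt_atTop 0] with n hn
    have hn' : (0 : ℝ) < n := by exact_mod_cast hn
    rw [div_le_iff₀ hn', add_mul, div_mul_cancel₀ _ hn'.ne']
    have h1 : 2 * (g '' side β ∩ Iio n).ncard ≤ n + 2 * C + 2 := by
      have := hu n
      omega
    have h2 : 2 * ((g '' side β ∩ Iio n).ncard : ℝ) ≤ n + 2 * C + 2 := by exact_mod_cast h1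
    linarith

/-- exchange `2 n` and `2 n + 1` for `n` in a set -/
theorem wobble (D : Set ℕ) : ∃ g : Equiv.Perm ℕ, BoundedDisplacement g ∧
    ∀ n, (n ∈ D → g (2 * n) = 2 * n + 1 ∧ g (2 * n + 1) = 2 * n) ∧
      (n ∉ D → g (2 * n) = 2 * n ∧ g (2 * n + 1) = 2 * n + 1) := by
  classical
  let f : ℕ → ℕ := fun m => if m / 2 ∈ D then (if m % 2 = 0 then m + 1 else m - 1) else m
  have hf : ∀ m, f (f m) = m := by
    intro m
    by_cases h : m / 2 ∈ D
    · rcases Nat.mod_two_eq_zero_or_one m with h1 | h1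
      · have e1 : f m = m + 1 := by simp only [f]; rw [if_pos h, if_pos h1]
        have e2 : (m + 1) / 2 = m / 2 := by omega
        rw [e1]
        simp only [f]
        rw [if_pos (by rwa [e2]), if_neg (by omega)]
        omega
      · have e1 : f m = m - 1 := by simp only [f]; rw [if_pos h, if_neg (by omega)]
        have e2 : (m - 1) / 2 = m / 2 := by omega
        rw [e1]
        simp only [f]
        rw [if_pos (by rwa [e2]), if_pos (by omega)]
        omega
    · have e1 : f m = m := by simp only [f]; rw [if_neg h]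
      rw [e1, e1]
  refine ⟨⟨f, f, hf, hf⟩, ⟨1, fun n => ?_⟩, fun n => ⟨fun h => ⟨?_, ?_⟩, fun h => ⟨?_, ?_⟩⟩⟩
  · show f n ≤ n + 1 ∧ n ≤ f n + 1
    simp only [f]
    split_ifs <;> omega
  · show f (2 * n) = 2 * n + 1
    simp only [f]
    rw [if_pos (by rwa [show 2 * n / 2 = n by omega]), if_pos (by omega)]
  · show f (2 * n + 1) = 2 * n
    simp only [f]
    rw [if_pos (by rwa [show (2 * n + 1) / 2 = n by omega]), if_neg (by omega)]
    omega
  · show f (2 * n) = 2 * n
    simp only [f]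
    rw [if_neg (by rwa [show 2 * n / 2 = n by omega])]
  · show f (2 * n + 1) = 2 * n + 1
    simp only [f]
    rw [if_neg (by rwa [show (2 * n + 1) / 2 = n by omega])]

/-- exchange `2 n + 1` and `2 n + 2` for `n` in a set -/
theorem wobble' (D : Set ℕ) : ∃ g : Equiv.Perm ℕ, BoundedDisplacement g ∧ g 0 = 0 ∧
    ∀ n, (n ∈ D → g (2 * n + 1) = 2 * n + 2 ∧ g (2 * n + 2) = 2 * n + 1) ∧
      (n ∉ D → g (2 * n + 1) = 2 * n + 1 ∧ g (2 * n + 2) = 2 * n + 2) := by
  obtain ⟨g, ⟨C, hC⟩, hg⟩ := wobble D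
  let f : (ℕ → ℕ) → ℕ → ℕ := fun g m => if m = 0 then 0 else g (m - 1) + 1
  have hf : ∀ g g' : ℕ → ℕ, (∀ m, g' (g m) = m) → ∀ m, f g' (f g m) = m := by
    intro g g' h m
    by_cases hm : m = 0
    · simp [f, hm]
    · have e1 : f g m = g (m - 1) + 1 := by simp only [f]; rw [if_neg hm]
      rw [e1]
      simp only [f]
      rw [if_neg (by omega), Nat.add_sub_cancel, h]
      omega
  refine ⟨⟨f g, f g.symm, hf _ _ g.symm_apply_apply, hf _ _ g.apply_symm_apply⟩, ⟨C, fun n => ?_⟩,
    rfl, fun n => ⟨fun h => ?_, fun h => ?_⟩⟩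
  · show f g n ≤ n + C ∧ n ≤ f g n + C
    simp only [f]
    by_cases hn : n = 0
    · rw [if_pos hn]
      omega
    · rw [if_neg hn]
      have := hC (n - 1)
      omega
  · show f g (2 * n + 1) = 2 * n + 2 ∧ f g (2 * n + 2) = 2 * n + 1
    simp only [f]
    rw [if_neg (by omega), if_neg (by omega), show 2 * n + 1 - 1 = 2 * n by omega,
      show 2 * n + 2 - 1 = 2 * n + 1 by omega, ((hg n).1 h).1, ((hg n).1 h).2]
    omega
  · show f g (2 * n + 1) = 2 * n + 1 ∧ f g (2 * n + 2) = 2 * n + 2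
    simp only [f]
    rw [if_neg (by omega), if_neg (by omega), show 2 * n + 1 - 1 = 2 * n by omega,
      show 2 * n + 2 - 1 = 2 * n + 1 by omega, ((hg n).2 h).1, ((hg n).2 h).2]
    omega

/-- Payoff sets closed under all rearrangements with bounded displacement are determined. -/
theorem bounded_determined {A : Set (ℕ → Bool)}
    (hA : ∀ g : Equiv.Perm ℕ, BoundedDisplacement g → ∀ x, x ∘ g ∈ A ↔ x ∈ A) :
    WinsI A ∨ WinsII A := by
  let z : ℕ → Bool := fun n => decide (n % 2 = 0)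
  have hz0 : ∀ n, z (2 * n) = true := fun n => by simp [z]
  have hz1 : ∀ n, z (2 * n + 1) = false := fun n => by simp [z]
  by_cases hz : z ∈ A
  · refine Or.inl ⟨fun L => if L.length = 0 then false else !(L.getD (L.length - 1) false),
      fun x hx => ?_⟩
    have h0 : x 0 = false := by
      have := hx 0
      simpa [hist] using this
    have h1 : ∀ n, x (2 * n + 2) = !x (2 * n + 1) := by
      intro n
      have h2 := hx (n + 1)
      rw [hist_eq_pre] at h2
      beta_reduce at h2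
      rw [length_pre, if_neg (by omega), show 2 * (n + 1) - 1 = 2 * n + 1 by omega,
        pre_getD _ _ _ _ (by omega)] at h2
      exact h2
    -- first make the pairs `(2 n + 1, 2 n + 2)` equal to `(1, 0)`
    obtain ⟨g, hg, hg0, hg'⟩ := wobble' {n | x (2 * n + 1) = false}
    obtain ⟨f, hf, hf'⟩ := wobble univ
    have h3 : (x ∘ g) ∘ f = z := by
      have e : ∀ n, x (g (2 * n + 1)) = true ∧ x (g (2 * n + 2)) = false := by
        intro n
        by_cases h4 : x (2 * n + 1) = false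
        · obtain ⟨h5, h6⟩ := (hg' n).1 h4
          rw [h5, h6, h1, h4]
          exact ⟨rfl, rfl⟩
        · obtain ⟨h5, h6⟩ := (hg' n).2 h4
          rw [h5, h6, h1]
          have h7 : x (2 * n + 1) = true := by
            rcases Bool.eq_false_or_eq_true (x (2 * n + 1)) with h | h
            · exact h
            · exact absurd h h4
          rw [h7]
          exact ⟨rfl, rfl⟩
      funext m
      obtain ⟨n, rfl | rfl⟩ := Nat.even_or_odd' m
      · show x (g (f (2 * n))) = _
        rw [((hf' n).1 (mem_univ n)).1, (e n).1, hz0]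
      · show x (g (f (2 * n + 1))) = _
        rw [((hf' n).1 (mem_univ n)).2, hz1]
        rcases Nat.eq_zero_or_pos n with hn | hn
        · subst hn
          rw [Nat.mul_zero, hg0, h0]
        · obtain ⟨k, rfl⟩ : ∃ k, n = k + 1 := ⟨n - 1, by omega⟩
          rw [show 2 * (k + 1) = 2 * k + 2 by ring, (e k).2]
    rw [← hA g hg x, ← hA f hf, h3]
    exact hz
  · refine Or.inr ⟨fun L => !(L.getD (L.length - 1) false), fun x hx => ?_⟩
    have h1 : ∀ n, x (2 * n + 1) = !x (2 * n) := by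
      intro n
      have h2 := hx n
      rw [hist_eq_pre] at h2
      beta_reduce at h2
      rw [length_pre, Nat.add_sub_cancel, pre_getD _ _ _ _ (by omega)] at h2
      exact h2
    obtain ⟨g, hg, hg'⟩ := wobble {n | x (2 * n) = false}
    have h3 : x ∘ g = z := by
      funext m
      obtain ⟨n, hm⟩ := Nat.even_or_odd' m
      have e : x (g (2 * n)) = true ∧ x (g (2 * n + 1)) = false := by
        by_cases h4 : x (2 * n) = false
        · obtain ⟨h5, h6⟩ := (hg' n).1 h4
          rw [h5, h6, h1, h4]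
          exact ⟨rfl, rfl⟩
        · obtain ⟨h5, h6⟩ := (hg' n).2 h4
          rw [h5, h6, h1]
          have h7 : x (2 * n) = true := by
            rcases Bool.eq_false_or_eq_true (x (2 * n)) with h | h
            · exact h
            · exact absurd h h4
          rw [h7]
          exact ⟨rfl, rfl⟩
      rcases hm with rfl | rfl
      · exact e.1.trans (hz0 n).symm
      · exact e.2.trans (hz1 n).symm
    intro hxA
    rw [← hA g hg x, h3] at hxA
    exact hz hxA

end Pool.Agent.Helper89K9.TG
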