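import Pool.Agent.Helper89K9.TG.Defs
import Pool.Agent.Y588.TC.Defs

set_option autoImplicit false

namespace Pool.Agent.Helper89K9.TG

open Pool.Agent.Y588.VT Pool.Agent.Y588.TC Set

/-- No element of `G` maps the positions of one of the players almost into themselves without
mapping them almost onto themselves. -/
def Incompressible (G : Subgroup (Equiv.Perm ℕ)) : Prop :=
  ∀ β < 2, ∀ g ∈ G, (g '' side β \ side β).Finite → (side β \ g '' side β).Finite

theorem side_infinite (β : ℕ) (hβ : β < 2) : (side β).Infinite := by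
  refine infinite_of_injective_forall_mem (f := fun n => 2 * n + β) (fun a b h => ?_) fun n => ?_
  · simp only at h
    omega
  · show (2 * n + β) % 2 = β
    omega

theorem tight_of_incompressible {G : Subgroup (Equiv.Perm ℕ)} (hG : Incompressible G) :
    Tight G := by
  rintro β hβ g - h hh ⟨h1, h2, h3⟩
  have h4 : (side (1 - β) \ h '' side (1 - β)).Finite := by
    refine hG (1 - β) (by omega) h hh (h2.subset ?_)
    rintro m ⟨hm, hm'⟩
    refine ⟨?_, hm⟩
    change ¬ m % 2 = 1 - β at hm'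
    change m % 2 = β
    omega
  refine (side_infinite β hβ).image g.injective.injOn (((h1.union h3).union h4).subset ?_)
  intro m hm
  by_cases h5 : m % 2 = β
  · exact Or.inl (Or.inl ⟨h5, hm⟩)
  · by_cases h6 : m ∈ h '' side (1 - β)
    · exact Or.inl (Or.inr ⟨hm, h6⟩)
    · refine Or.inr ⟨?_, h6⟩
      show m % 2 = 1 - β
      omega

theorem incompressible_of_torsion {G : Subgroup (Equiv.Perm ℕ)}
    (hG : ∀ g ∈ G, ∃ n > 0, g ^ n = 1) : Incompressible G := by
  intro β hβ g hg hfin
  obtain ⟨n, hn, hgn⟩ := hG g hg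
  have key : ∀ i : ℕ, ((g ^ i : Equiv.Perm ℕ) '' side β \ side β).Finite := by
    intro i
    induction i with
    | zero => simp
    | succ i ih =>
      refine ((ih.image g).union hfin).subset ?_
      rintro m ⟨⟨m', hm', rfl⟩, hm2⟩
      rw [pow_succ', Equiv.Perm.mul_apply] at hm2 ⊢
      by_cases h1 : (g ^ i : Equiv.Perm ℕ) m' ∈ side β
      · exact Or.inr ⟨⟨_, h1, rfl⟩, hm2⟩
      · exact Or.inl ⟨_, ⟨⟨m', hm', rfl⟩, h1⟩, rfl⟩
  obtain ⟨k, rfl⟩ : ∃ k, n = k + 1 := ⟨n - 1, by omega⟩
  refine ((key k).image g).subset ?_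
  rintro m ⟨hm, hm'⟩
  have h1 : m = g ((g ^ k : Equiv.Perm ℕ) m) := by
    rw [← Equiv.Perm.mul_apply, ← pow_succ', hgn]
    rfl
  refine ⟨(g ^ k : Equiv.Perm ℕ) m, ⟨⟨m, hm, rfl⟩, fun h2 => hm' ?_⟩, h1.symm⟩
  exact ⟨_, h2, h1.symm⟩

/-- The permutation `2 m ↦ 4 m`, `4 m + 1 ↦ 4 m + 2`, `4 m + 3 ↦ 2 m + 1`. -/
def permA : Equiv.Perm ℕ where
  toFun := fa
  invFun n := if n % 4 = 0 then n / 2 else if n % 4 = 2 then n - 1 else 2 * n + 1
  left_inv n := by
    unfold fa
    dsimp only
    split_ifs <;> omega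
  right_inv n := by
    unfold fa
    dsimp only
    split_ifs <;> omega

theorem fb_even (m : ℕ) : fb (2 * m) = 2 * m := by
  rw [fb, if_pos (by omega)]

theorem fb_odd (m : ℕ) : fb (2 * m + 1) = 2 * fa m + 1 := by
  rw [fb, if_neg (by omega), show (2 * m + 1) / 2 = m by omega]

/-- The inverse of `fb`. -/
def fbInv (n : ℕ) : ℕ := if n % 2 = 0 then n else 2 * permA.symm (n / 2) + 1

theorem fbInv_even (m : ℕ) : fbInv (2 * m) = 2 * m := by
  rw [fbInv, if_pos (by omega)]

theorem fbInv_odd (m : ℕ) : fbInv (2 * m + 1) = 2 * permA.symm m + 1 := by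
  rw [fbInv, if_neg (by omega), show (2 * m + 1) / 2 = m by omega]

/-- The permutation which fixes `2 n` and maps `2 n + 1` to `2 * permA n + 1`. -/
def permB : Equiv.Perm ℕ where
  toFun := fb
  invFun := fbInv
  left_inv n := by
    rcases Nat.even_or_odd' n with ⟨m, rfl | rfl⟩
    · rw [fb_even, fbInv_even]
    · rw [fb_odd, fbInv_odd, show fa m = permA m from rfl, Equiv.symm_apply_apply]
  right_inv n := by
    rcases Nat.even_or_odd' n with ⟨m, rfl | rfl⟩
    · rw [fbInv_even, fb_even]
    · rw [fbInv_odd, fb_odd, show fa (permA.symm m) = permA (permA.symm m) from rfl,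
        Equiv.apply_symm_apply]

theorem quarter0 (m : ℕ) : quarter (4 * m) = 4 * m + 2 := by
  rw [quarter, if_pos (by omega)]

theorem quarter2 (m : ℕ) : quarter (4 * m + 2) = 4 * m + 1 := by
  rw [quarter, if_neg (by omega), if_pos (by omega)]
  omega

theorem quarter1 (m : ℕ) : quarter (4 * m + 1) = 4 * m + 3 := by
  rw [quarter, if_neg (by omega), if_neg (by omega), if_pos (by omega)]

theorem quarter3 (m : ℕ) : quarter (4 * m + 3) = 4 * m := by
  rw [quarter, if_neg (by omega), if_neg (by omega), if_neg (by omega)]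
  omega

theorem third0 (m : ℕ) : third (4 * m) = 4 * m + 2 := by
  rw [third, if_pos (by omega)]

theorem third2 (m : ℕ) : third (4 * m + 2) = 2 * m + 1 := by
  rw [third, if_neg (by omega), if_pos (by omega)]
  omega

theorem third1 (m : ℕ) : third (2 * m + 1) = 4 * m := by
  rw [third, if_neg (by omega), if_neg (by omega)]
  omega

theorem four_cases (n : ℕ) : ∃ m, n = 4 * m ∨ n = 4 * m + 1 ∨ n = 4 * m + 2 ∨ n = 4 * m + 3 :=
  ⟨n / 4, by omega⟩

theorem three_cases (n : ℕ) : ∃ m, n = 4 * m ∨ n = 2 * m + 1 ∨ n = 4 * m + 2 := by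
  rcases (by omega : n % 4 = 0 ∨ n % 2 = 1 ∨ n % 4 = 2) with h | h | h
  · exact ⟨n / 4, by omega⟩
  · exact ⟨n / 2, by omega⟩
  · exact ⟨n / 4, by omega⟩

theorem quarter_four (n : ℕ) : quarter (quarter (quarter (quarter n))) = n := by
  obtain ⟨m, rfl | rfl | rfl | rfl⟩ := four_cases n
  · rw [quarter0, quarter2, quarter1, quarter3]
  · rw [quarter1, quarter3, quarter0, quarter2]
  · rw [quarter2, quarter1, quarter3, quarter0]
  · rw [quarter3, quarter0, quarter2, quarter1]

theorem third_three (n : ℕ) : third (third (third n)) = n := by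
  obtain ⟨m, rfl | rfl | rfl⟩ := three_cases n
  · rw [third0, third2, third1]
  · rw [third1, third0, third2]
  · rw [third2, third1, third0]

/-- The permutation `4 m ↦ 4 m + 2 ↦ 4 m + 1 ↦ 4 m + 3 ↦ 4 m`. -/
def permQ : Equiv.Perm ℕ where
  toFun := quarter
  invFun n := quarter (quarter (quarter n))
  left_inv := quarter_four
  right_inv := quarter_four

/-- The permutation `4 m ↦ 4 m + 2 ↦ 2 m + 1 ↦ 4 m`. -/
def permT : Equiv.Perm ℕ where
  toFun := third
  invFun n := third (third n)
  left_inv := third_three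
  right_inv := third_three

theorem fa_pow (n : ℕ) : fa (2 ^ (n + 1)) = 2 ^ (n + 2) := by
  have h : 2 ^ (n + 2) = 2 * 2 ^ (n + 1) := by ring
  rw [h, fa, if_pos]
  rw [pow_succ]
  omega

theorem fa_pow' (n : ℕ) : fa (2 ^ (n + 2) - 1) = 2 ^ (n + 1) - 1 := by
  have h : 2 ^ (n + 2) = 4 * 2 ^ n := by ring
  have h' : 2 ^ (n + 1) = 2 * 2 ^ n := by ring
  have h1 : 0 < 2 ^ n := by positivity
  rw [h, h', fa, if_neg (by omega), if_neg (by omega)]
  omega

theorem fb_pow (n : ℕ) : fb (2 ^ (n + 1)) = 2 ^ (n + 1) := by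
  rw [fb, if_pos]
  rw [pow_succ]
  omega

theorem fb_pow' (n : ℕ) : fb (2 ^ (n + 3) - 1) = 2 ^ (n + 2) - 1 := by
  have h : 2 ^ (n + 3) = 2 * 2 ^ (n + 2) := by ring
  have h' : 2 ^ (n + 2) = 2 * 2 ^ (n + 1) := by ring
  have h1 : 0 < 2 ^ (n + 1) := by positivity
  have h2 : (2 ^ (n + 3) - 1) / 2 = 2 ^ (n + 2) - 1 := by omega
  rw [fb, if_neg (by omega), h2, fa_pow']
  omega

theorem ends {f : ℕ → ℕ} (G : Subgroup (Equiv.Perm ℕ)) (S : Set (Equiv.Perm ℕ))
    (hG : G = Subgroup.closure S)
    (hS : ∀ g ∈ S, ∃ d e, ∀ n, g (f (n + d)) = f (n + e)) :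
    ∀ g ∈ G, ∃ d e, ∀ n, g (f (n + d)) = f (n + e) := by
  subst hG
  intro g hg
  induction hg using Subgroup.closure_induction with
  | mem g hg => exact hS g hg
  | one => exact ⟨0, 0, fun n => rfl⟩
  | mul g g' _ _ ih ih' =>
    obtain ⟨d, e, h⟩ := ih
    obtain ⟨d', e', h'⟩ := ih'
    refine ⟨d + d', e + e', fun n => ?_⟩
    rw [Equiv.Perm.mul_apply, show n + (d + d') = n + d + d' by omega, h',
      show n + d + e' = n + e' + d by omega, h]
    congr 1
    omega
  | inv g _ ih =>
    obtain ⟨d, e, h⟩ := ih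
    refine ⟨e, d, fun n => ?_⟩
    rw [Equiv.Perm.inv_eq_iff_eq, h]

theorem tight_thompsonF : Tight (Subgroup.closure {permA, permB}) := by
  have h0 := ends (f := fun n => 2 ^ (n + 1)) _ {permA, permB} rfl (by
    rintro g (rfl | rfl)
    · exact ⟨0, 1, fun n => fa_pow n⟩
    · exact ⟨0, 0, fun n => fb_pow n⟩)
  have h1 := ends (f := fun n => 2 ^ (n + 1) - 1) _ {permA, permB} rfl (by
    rintro g (rfl | rfl)
    · exact ⟨1, 0, fun n => fa_pow' n⟩
    · exact ⟨2, 1, fun n => fb_pow' n⟩)
  rintro β hβ g hg h - ⟨h2, -, -⟩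
  have hmono : StrictMono fun n : ℕ => 2 ^ (n + 1) := fun a b hab =>
    Nat.pow_lt_pow_right (by norm_num) (by omega)
  interval_cases β
  · obtain ⟨d, e, h3⟩ := h0 g hg
    refine infinite_of_injective_forall_mem (f := fun n : ℕ => 2 ^ (n + e + 1)) ?_ ?_ h2
    · intro a b hab
      have := hmono.injective hab
      omega
    · intro n
      refine ⟨?_, 2 ^ (n + d + 1), ?_, h3 n⟩
      · show 2 ^ (n + e + 1) % 2 = 0
        rw [pow_succ]
        omega
      · show 2 ^ (n + d + 1) % 2 = 0
        rw [pow_succ]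
        omega
  · obtain ⟨d, e, h3⟩ := h1 g hg
    refine infinite_of_injective_forall_mem (f := fun n : ℕ => 2 ^ (n + e + 1) - 1) ?_ ?_ h2
    · intro a b hab
      simp only at hab
      have h4 : 0 < 2 ^ (a + e + 1) := by positivity
      have h5 : 0 < 2 ^ (b + e + 1) := by positivity
      have h6 : 2 ^ (a + e + 1) = 2 ^ (b + e + 1) := by omega
      have := hmono.injective h6
      omega
    · intro n
      refine ⟨?_, 2 ^ (n + d + 1) - 1, ?_, h3 n⟩
      · show (2 ^ (n + e + 1) - 1) % 2 = 1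
        have h4 : 0 < 2 ^ (n + e) := by positivity
        rw [pow_succ]
        omega
      · show (2 ^ (n + d + 1) - 1) % 2 = 1
        have h4 : 0 < 2 ^ (n + d) := by positivity
        rw [pow_succ]
        omega

theorem fa0 (m : ℕ) : fa (2 * m) = 4 * m := by
  rw [fa, if_pos (by omega)]
  omega

theorem fa1 (m : ℕ) : fa (4 * m + 1) = 4 * m + 2 := by
  rw [fa, if_neg (by omega), if_pos (by omega)]

theorem fa3 (m : ℕ) : fa (4 * m + 3) = 2 * m + 1 := by
  rw [fa, if_neg (by omega), if_neg (by omega)]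
  omega

theorem permA_eq : permA = permT * (permQ * permQ) := by
  ext n
  show fa n = third (quarter (quarter n))
  obtain ⟨m, rfl | rfl | rfl | rfl⟩ := four_cases n
  · rw [quarter0, quarter2, show 4 * m + 1 = 2 * (2 * m) + 1 by omega, third1,
      show 4 * m = 2 * (2 * m) by omega, fa0]
  · rw [quarter1, quarter3, third0, fa1]
  · rw [quarter2, quarter1, show 4 * m + 3 = 2 * (2 * m + 1) + 1 by omega, third1,
      show 4 * m + 2 = 2 * (2 * m + 1) by omega, fa0]
  · rw [quarter3, quarter0, third2, fa3]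

theorem permB_eq : permB = permQ * permQ * permT * permQ * permT * (permQ * permQ) := by
  ext n
  show fb n = quarter (quarter (third (quarter (third (quarter (quarter n))))))
  obtain ⟨m, rfl | rfl | rfl | rfl⟩ := four_cases n
  · rw [quarter0, quarter2, show 4 * m + 1 = 2 * (2 * m) + 1 by omega, third1, quarter0, third2,
      show 2 * (2 * m) + 1 = 4 * m + 1 by omega, quarter1, quarter3,
      show 4 * m = 2 * (2 * m) by omega, fb_even]
  · rw [quarter1, quarter3, third0, quarter2, show 4 * m + 1 = 2 * (2 * m) + 1 by omega, third1,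
      quarter0, quarter2, fb_odd, fa0]
    omega
  · rw [quarter2, quarter1, show 4 * m + 3 = 2 * (2 * m + 1) + 1 by omega, third1, quarter0,
      third2, show 2 * (2 * m + 1) + 1 = 4 * m + 3 by omega, quarter3, quarter0,
      show 4 * m + 2 = 2 * (2 * m + 1) by omega, fb_even]
  · rw [quarter3, quarter0, third2, show 4 * m + 3 = 2 * (2 * m + 1) + 1 by omega, fb_odd]
    obtain ⟨k, rfl | rfl⟩ := Nat.even_or_odd' m
    · rw [show 2 * (2 * k) + 1 = 4 * k + 1 by omega, quarter1, fa1,
        show 4 * k + 3 = 2 * (2 * k + 1) + 1 by omega, third1, quarter0, quarter2]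
      omega
    · rw [show 2 * (2 * k + 1) + 1 = 4 * k + 3 by omega, quarter3, fa3, third0, quarter2, quarter1]
      omega

/-- Closure under the generators is closure under the group. -/
theorem circle_iff (A : Set (ℕ → Bool)) :
    GroupInvariant (Subgroup.closure {permQ, permT}) A ↔ CircleInvariant A := by
  constructor
  · intro h x
    exact ⟨h permQ (Subgroup.subset_closure (by simp)) x,
      h permT (Subgroup.subset_closure (by simp)) x⟩
  · intro h g hg
    induction hg using Subgroup.closure_induction with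
    | mem g hg =>
      rcases hg with rfl | rfl
      · exact fun x => (h x).1
      · exact fun x => (h x).2
    | one => exact fun x => Iff.rfl
    | mul g g' _ _ ih ih' =>
      intro x
      have e : x ∘ ((g * g' : Equiv.Perm ℕ) : ℕ → ℕ) = (x ∘ g) ∘ g' := rfl
      rw [e, ih' (x ∘ g), ih x]
    | inv g _ ih =>
      intro x
      have e : (x ∘ ((g⁻¹ : Equiv.Perm ℕ) : ℕ → ℕ)) ∘ g = x := by
        funext n
        simp
      rw [← ih (x ∘ ((g⁻¹ : Equiv.Perm ℕ) : ℕ → ℕ)), e]

theorem thompsonF_le_thompsonT :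
    Subgroup.closure {permA, permB} ≤ Subgroup.closure {permQ, permT} := by
  have hq : permQ ∈ Subgroup.closure {permQ, permT} := Subgroup.subset_closure (by simp)
  have ht : permT ∈ Subgroup.closure {permQ, permT} := Subgroup.subset_closure (by simp)
  have hs := Subgroup.mul_mem _ hq hq
  rw [Subgroup.closure_le]
  rintro g (rfl | rfl)
  · rw [permA_eq]
    exact Subgroup.mul_mem _ ht hs
  · rw [permB_eq]
    exact Subgroup.mul_mem _ (Subgroup.mul_mem _ (Subgroup.mul_mem _ (Subgroup.mul_mem _ hs ht)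
      hq) ht) hs

theorem not_tight_thompsonT : ¬ Tight (Subgroup.closure {permQ, permT}) := by
  intro h
  have hq : permQ ∈ Subgroup.closure {permQ, permT} := Subgroup.subset_closure (by simp)
  have ht : permT ∈ Subgroup.closure {permQ, permT} := Subgroup.subset_closure (by simp)
  have hs := Subgroup.mul_mem _ hq hq
  have hg := Subgroup.mul_mem _ (Subgroup.mul_mem _ hs ht) hs
  have hh := Subgroup.mul_mem _ hs (Subgroup.inv_mem _ ht)
  have e1 : ∀ m, m % 2 = 0 → (permQ * permQ * permT * (permQ * permQ)) m % 4 = 1 := by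
    intro m hm
    show quarter (quarter (third (quarter (quarter m)))) % 4 = 1
    obtain ⟨k, rfl | rfl | rfl | rfl⟩ := four_cases m
    · rw [quarter0, quarter2, show 4 * k + 1 = 2 * (2 * k) + 1 by omega, third1, quarter0,
        quarter2]
      omega
    · omega
    · rw [quarter2, quarter1, show 4 * k + 3 = 2 * (2 * k + 1) + 1 by omega, third1, quarter0,
        quarter2]
      omega
    · omega
  have e2 : ∀ m, m % 2 = 1 → (permQ * permQ * permT⁻¹) m % 4 = 3 := by
    intro m hm
    show quarter (quarter (third (third m))) % 4 = 3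
    obtain ⟨k, rfl⟩ : ∃ k, m = 2 * k + 1 := ⟨m / 2, by omega⟩
    rw [third1, third0, quarter2, quarter1]
    omega
  refine h 0 (by omega) _ hg _ hh ⟨?_, ?_, ?_⟩
  · refine finite_empty.subset ?_
    rintro m ⟨hm, m', hm', rfl⟩
    have h1 := e1 m' hm'
    change _ % 2 = 0 at hm
    omega
  · refine finite_empty.subset ?_
    rintro m ⟨hm, m', hm', rfl⟩
    have h1 := e2 m' hm'
    change _ % 2 = 0 at hm
    omega
  · refine finite_empty.subset ?_
    rintro m ⟨⟨m1, hm1, rfl⟩, m', hm', h2⟩
    have h1 := e2 m' hm'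
    have h3 := e1 m1 hm1
    rw [h2] at h1
    omega

end Pool.Agent.Helper89K9.TG
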