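import Pool.Agent.Helper89K9.TG.Back

set_option autoImplicit false

namespace Pool.Agent.Helper89K9.TG

open Pool.Agent.Helper227 Pool.Agent.H685R3 Pool.Agent.Y588.VT Set Topology

/-- The plays for which the guess `i` about the move `j` of the player `γ` is correct. -/
def CC (G : Subgroup (Equiv.Perm ℕ)) (p q : ℕ → ℕ → ℕ) (γ : ℕ) (j : ℕ) (i : G × ℕ × Bool) :
    Set (ℕ → Bool) :=
  {x : ℕ → Bool | LegN p q γ i.2.1 (x ∘ (i.1 : Equiv.Perm ℕ)) ∧
    ∀ n ≥ i.2.1, (x ∘ (i.1 : Equiv.Perm ℕ)) (p j n) = i.2.2}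

/-- The guess `i` is not yet refuted. -/
def Alive (G : Subgroup (Equiv.Perm ℕ)) (p q : ℕ → ℕ → ℕ) (γ j : ℕ) (e : ℕ → G × ℕ × Bool)
    (L : List Bool) (i : ℕ) : Prop :=
  ∃ x, pre x L.length = L ∧ x ∈ CC G p q γ j (e i)

open Classical in
/-- The guess. -/
noncomputable def gs (G : Subgroup (Equiv.Perm ℕ)) (p q : ℕ → ℕ → ℕ) (γ : ℕ)
    (e : ℕ → G × ℕ × Bool) (L : List Bool) (j : ℕ) : Bool :=
  if h : ∃ i, Alive G p q γ j e L i then (e (Nat.find h)).2.2 else false

theorem eventually_dead {C : Set (ℕ → Bool)} (hC : IsClosed C) {x : ℕ → Bool} (hx : x ∉ C) :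
    ∃ M, ∀ m ≥ M, ¬ ∃ x', pre x' (pre x m).length = pre x m ∧ x' ∈ C := by
  have h1 : IsOpen Cᶜ := hC.isOpen_compl
  obtain ⟨V, ⟨z, n, rfl⟩, hxV, hVU⟩ :=
    (PiNat.isTopologicalBasis_cylinders (fun _ => Bool)).exists_subset_of_mem_open
      (show x ∈ Cᶜ from hx) h1
  refine ⟨n, fun m hm => ?_⟩
  rintro ⟨x', h2, h3⟩
  rw [length_pre] at h2
  refine hVU ?_ h3
  rw [← PiNat.mem_cylinder_iff_eq.1 hxV]
  intro i hi
  exact pre_agree h2 i (by omega)

theorem gs_lim {G : Subgroup (Equiv.Perm ℕ)} {p q : ℕ → ℕ → ℕ} {γ j : ℕ} {e : ℕ → G × ℕ × Bool}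
    {x : ℕ → Bool} (h : ∃ i, x ∈ CC G p q γ j (e i)) :
    ∃ i, x ∈ CC G p q γ j (e i) ∧ ∃ M, ∀ m ≥ M, gs G p q γ e (pre x m) j = (e i).2.2 := by
  classical
  refine ⟨Nat.find h, Nat.find_spec h, ?_⟩
  have h1 : ∀ i, ∃ M, i < Nat.find h → ∀ m ≥ M, ¬ Alive G p q γ j e (pre x m) i := by
    intro i
    by_cases hi : i < Nat.find h
    · obtain ⟨M, hM⟩ := eventually_dead (isClosed_good _ _ _ _) (Nat.find_min h hi)
      exact ⟨M, fun _ => hM⟩
    · exact ⟨0, fun h => absurd h hi⟩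
  choose M hM using h1
  refine ⟨(Finset.range (Nat.find h)).sup M, fun m hm => ?_⟩
  have h2 : Alive G p q γ j e (pre x m) (Nat.find h) :=
    ⟨x, by rw [length_pre], Nat.find_spec h⟩
  have h3 : ∃ i, Alive G p q γ j e (pre x m) i := ⟨_, h2⟩
  rw [gs, dif_pos h3]
  have h4 : Nat.find h3 = Nat.find h := by
    rw [Nat.find_eq_iff]
    refine ⟨h2, fun i hi => hM i hi m (le_trans ?_ hm)⟩
    exact Finset.le_sup (f := M) (Finset.mem_range.2 hi)
  rw [h4]

/-- The guesses of the player `β` for the move `j`. -/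
noncomputable def gue (G : Subgroup (Equiv.Perm ℕ)) (p q : ℕ → ℕ → ℕ) (β : ℕ)
    (e : ℕ → G × ℕ × Bool) (L : List Bool) (j : ℕ) : Bool :=
  if j % 2 = β then lastVote p L j else gs G p q (1 - β) e L j

open Classical in
/-- The strategy of the player `β`. -/
noncomputable def strat (G : Subgroup (Equiv.Perm ℕ)) (p q : ℕ → ℕ → ℕ) (β : ℕ)
    (e : ℕ → G × ℕ × Bool) (s : List Bool → Bool) (L : List Bool) : Bool :=
  if h : ∃ z : ℕ × ℕ, L.length = q z.1 z.2 then !(L.getD (p h.choose.1 h.choose.2) false)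
  else if h : ∃ z : ℕ × ℕ, L.length = p z.1 z.2 then
    s ((List.range h.choose.1).map (gue G p q β e L))
  else false

theorem wins_fwd {G : Subgroup (Equiv.Perm ℕ)} [Countable G] {p q : ℕ → ℕ → ℕ}
    (hs : Slots G p q) (hG : Tight G) {β : ℕ} (hβ : β < 2) {A : Set (ℕ → Bool)}
    (h : Wins β A) : Wins β {x | Legal p q β x ∧ ∀ g ∈ G, Legal p q (1 - β) (x ∘ g) →
      mx β x (x ∘ g) ∈ VB p β A} := by
  obtain ⟨s, hsA⟩ := h
  obtain ⟨e, he⟩ := exists_surjective_nat (G × ℕ × Bool)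
  refine ⟨strat G p q β e s, fun x hx => ?_⟩
  have hx' : ∀ m, m % 2 = β → x m = strat G p q β e s (pre x m) := by
    intro m hm
    have h1 := hx (m / 2)
    have h2 : 2 * (m / 2) + β = m := by omega
    rwa [h2, hist_eq_pre] at h1
  have hq : ∀ k n, k % 2 = β → x (q k n) = !x (p k n) := by
    intro k n hk
    rw [hx' _ (by rw [hs.qpar, hk]), strat,
      dif_pos (⟨(k, n), by rw [length_pre]⟩ : ∃ z : ℕ × ℕ, (pre x (q k n)).length = q z.1 z.2)]
    generalize_proofs h5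
    have h6 := (length_pre x (q k n)).symm.trans h5.choose_spec
    obtain ⟨h7, h8⟩ := hs.qinj _ _ _ _ h6
    rw [← h7, ← h8, pre_getD _ _ _ _ (hs.pltq k n)]
  have hf : ∀ m, m % 2 = β → (∀ k n, m ≠ p k n ∧ m ≠ q k n) → x m = false := by
    intro m hm hm'
    rw [hx' _ hm, strat, dif_neg, dif_neg]
    · rintro ⟨z, hz⟩
      rw [length_pre] at hz
      exact (hm' _ _).1 hz
    · rintro ⟨z, hz⟩
      rw [length_pre] at hz
      exact (hm' _ _).2 hz
  have key : ∀ k, k % 2 = β → ∀ n,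
      x (p k n) = s ((List.range k).map (gue G p q β e (pre x (p k n)))) := by
    intro k hk n
    rw [hx' _ (by rw [hs.cols.par, hk]), strat, dif_neg,
      dif_pos (⟨(k, n), by rw [length_pre]⟩ : ∃ z : ℕ × ℕ, (pre x (p k n)).length = p z.1 z.2)]
    · generalize_proofs h5
      have h6 := (length_pre x (p k n)).symm.trans h5.choose_spec
      rw [← (hs.pinj _ _ _ _ h6).1]
    · rintro ⟨z, hz⟩
      rw [length_pre] at hz
      exact hs.pneq _ _ _ _ hz
  have hleg : Legal p q β x := by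
    have h1 : Errors p q β x = ∅ := by
      rw [eq_empty_iff_forall_notMem]
      rintro m ⟨hm, ⟨k, n, rfl, h2⟩ | ⟨h2, h3⟩⟩
      · rw [hq k n (by rw [← hs.qpar k n, hm])] at h2
        simp at h2
      · rw [hf m hm h2] at h3
        exact absurd h3 (by decide)
    rw [Legal, h1]
    exact finite_empty
  refine ⟨hleg, fun g hg hlg => ?_⟩
  -- the guesses converge
  have hgue : ∀ j b, Settled p (mx β x (x ∘ g)) j b →
      ∃ M, ∀ m ≥ M, gue G p q β e (pre x m) j = b := by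
    intro j b hj
    by_cases hjβ : j % 2 = β
    · obtain ⟨N, hN⟩ := (settled_mx hs.cols hjβ).1 hj
      refine ⟨p j N + 1, fun m hm => ?_⟩
      rw [gue, if_pos hjβ]
      exact lastVote_pre hs.cols hN (by omega)
    · have hj' := (settled_mx' hs.cols hjβ).1 hj
      have hex : ∃ i, x ∈ CC G p q (1 - β) j (e i) := by
        obtain ⟨N, hN⟩ := (legal_iff hs).1 hlg
        obtain ⟨N', hN'⟩ := hj'
        obtain ⟨i, hi⟩ := he (⟨g, hg⟩, max N N', b)
        refine ⟨i, ?_⟩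
        rw [hi]
        exact ⟨⟨fun k n hk hn => hN.1 k n hk (lt_of_le_of_lt (le_max_left N N') hn),
          fun m hm => hN.2 m (lt_of_le_of_lt (le_max_left N N') hm)⟩,
          fun n hn => hN' n ((le_max_right N N').trans hn)⟩
      obtain ⟨i, hi, M, hM⟩ := gs_lim hex
      refine ⟨M, fun m hm => ?_⟩
      rw [gue, if_neg hjβ, hM m hm]
      refine uniq hs hG (β := 1 - β) (by omega) (x := x) (g := (e i).1) (g' := g) ?_
        (e i).1.2 hg ((legal_iff hs).2 ⟨_, hi.1⟩) hlg (k := j) (by omega) ⟨_, hi.2⟩ hj'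
      have h1 : 1 - (1 - β) = β := by omega
      rwa [h1]
  have key2 : ∀ k, k % 2 = β → ∀ y : ℕ → Bool,
      (∀ j < k, Settled p (mx β x (x ∘ g)) j (y j)) →
      Settled p (mx β x (x ∘ g)) k (s (pre y k)) := by
    intro k hk y hy
    rw [settled_mx hs.cols hk]
    have h1 : ∀ j, ∃ M, j < k → ∀ m ≥ M, gue G p q β e (pre x m) j = y j := by
      intro j
      by_cases hj : j < k
      · obtain ⟨N, hN⟩ := hgue j _ (hy j hj)
        exact ⟨N, fun _ => hN⟩
      · exact ⟨0, fun h => absurd h hj⟩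
    choose M hM using h1
    refine ⟨(Finset.range k).sup M, fun n hn => ?_⟩
    rw [key k hk]
    congr 1
    refine List.map_congr_left fun j hj => ?_
    rw [List.mem_range] at hj
    refine hM j hj _ ?_
    have h2 : M j ≤ (Finset.range k).sup M := Finset.le_sup (f := M) (Finset.mem_range.2 hj)
    have h3 := hs.cols.le k n
    omega
  by_cases hall : ∀ k, ∃ b, Settled p (mx β x (x ∘ g)) k b
  · choose y hy using hall
    refine Or.inl ⟨y, hsA y fun n => ?_, hy⟩
    rw [hist_eq_pre]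
    exact (hy (2 * n + β)).unique (key2 (2 * n + β) (by omega) y fun j _ => hy j)
  · obtain ⟨k, h1, h2⟩ := exists_least hall
    refine Or.inr ⟨k, fun hk => ?_, h1, h2⟩
    have h3 : ∀ j, ∃ b, j < k → Settled p (mx β x (x ∘ g)) j b := by
      intro j
      by_cases hj : j < k
      · obtain ⟨b, hb⟩ := h2 j hj
        exact ⟨b, fun _ => hb⟩
      · exact ⟨false, fun h => absurd h hj⟩
    choose y hy using h3
    exact h1 _ (key2 k hk y hy)

end Pool.Agent.Helper89K9.TG
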