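import Pool.Agent.Helper89K9.TG.Slots

set_option autoImplicit false

namespace Pool.Agent.Helper89K9.TG

open Pool.Agent.Helper227 Pool.Agent.H685R3 Pool.Agent.Y588.VT

variable {G : Subgroup (Equiv.Perm ℕ)} {p q : ℕ → ℕ → ℕ}

theorem settled_congr (hp : Cols p) {x y : ℕ → Bool} (h : {n | x n ≠ y n}.Finite) {k : ℕ} {b : Bool}
    (hx : Settled p x k b) : Settled p y k b := by
  obtain ⟨N, hN⟩ := hx
  obtain ⟨M, hM⟩ := h.bddAbove
  refine ⟨max N (M + 1), fun n hn => ?_⟩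
  have h1 := hN n (le_trans (le_max_left _ _) hn)
  have h2 : p k n ∉ {n | x n ≠ y n} := fun h2 => by
    have h3 := hM h2
    have h4 := hp.le k n
    have h5 : M + 1 ≤ n := le_trans (le_max_right _ _) hn
    omega
  simp only [Set.mem_ofPred_eq, not_not] at h2
  rw [← h2, h1]

theorem diff_symm {x y : ℕ → Bool} (h : {n | x n ≠ y n}.Finite) : {n | y n ≠ x n}.Finite := by
  refine h.subset fun n hn => ?_
  exact fun h' => hn h'.symm

theorem voting_congr (hp : Cols p) {x y : ℕ → Bool} (h : {n | x n ≠ y n}.Finite)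
    {A : Set (ℕ → Bool)} (hx : x ∈ Voting p A) : y ∈ Voting p A := by
  rcases hx with ⟨v, hv, h1⟩ | ⟨k, hk, h1, h2⟩
  · exact Or.inl ⟨v, hv, fun k => settled_congr hp h (h1 k)⟩
  · refine Or.inr ⟨k, hk, fun b hb => h1 b (settled_congr hp (diff_symm h) hb), fun j hj => ?_⟩
    obtain ⟨b, hb⟩ := h2 j hj
    exact ⟨b, settled_congr hp h hb⟩

theorem Slots.legal_congr (hs : Slots G p q) {β : ℕ} {x y : ℕ → Bool} (h : {n | x n ≠ y n}.Finite)
    (hx : Legal p q β x) : Legal p q β y := by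
  have h1 : {z : ℕ × ℕ | x (p z.1 z.2) ≠ y (p z.1 z.2)}.Finite := by
    refine h.preimage (f := fun z : ℕ × ℕ => p z.1 z.2) ?_
    rintro ⟨k, n⟩ - ⟨k', n'⟩ - h2
    obtain ⟨rfl, rfl⟩ := hs.pinj _ _ _ _ h2
    rfl
  refine ((hx.union h).union (h1.image fun z => q z.1 z.2)).subset ?_
  rintro m ⟨hm, h2⟩
  by_cases h3 : x m = y m
  swap
  · exact Or.inl (Or.inr h3)
  rcases h2 with ⟨k, n, rfl, h4⟩ | ⟨h4, h5⟩
  · by_cases h5 : x (p k n) = y (p k n)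
    · exact Or.inl (Or.inl ⟨hm, Or.inl ⟨k, n, rfl, by rw [h3, h4, h5]⟩⟩)
    · exact Or.inr ⟨(k, n), h5, rfl⟩
  · exact Or.inl (Or.inl ⟨hm, Or.inr ⟨h4, by rw [h3, h5]⟩⟩)

theorem comp_diff {x y : ℕ → Bool} (h : {n | x n ≠ y n}.Finite) (g : Equiv.Perm ℕ) :
    {n | (x ∘ g) n ≠ (y ∘ g) n}.Finite :=
  h.preimage (f := g) g.injective.injOn

theorem mix_diff {x x' y y' : ℕ → Bool} (h : {n | x n ≠ x' n}.Finite)
    (h' : {n | y n ≠ y' n}.Finite) : {n | mix x y n ≠ mix x' y' n}.Finite := by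
  refine (h.union h').subset fun n hn => ?_
  simp only [Set.mem_ofPred_eq, mix] at hn
  split_ifs at hn
  · exact Or.inl hn
  · exact Or.inr hn

theorem coded_congr (hs : Slots G p q) {A : Set (ℕ → Bool)} {x y : ℕ → Bool}
    (h : {n | x n ≠ y n}.Finite) (hx : x ∈ Coded G p q A) : y ∈ Coded G p q A := by
  obtain ⟨g, hg, h1, h2⟩ := hx
  refine ⟨g, hg, hs.legal_congr (comp_diff h g) h1, fun g' hg' h3 => ?_⟩
  have h4 := h2 g' hg' (hs.legal_congr (diff_symm (comp_diff h g')) h3)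
  exact voting_congr hs.cols (mix_diff (comp_diff h g) (comp_diff h g')) h4

theorem tail_coded (hs : Slots G p q) (A : Set (ℕ → Bool)) : TailInvariant (Coded G p q A) :=
  fun _ _ h => ⟨coded_congr hs h, coded_congr hs (diff_symm h)⟩

theorem coded_comp {A : Set (ℕ → Bool)} {g : Equiv.Perm ℕ} (hg : g ∈ G) {x : ℕ → Bool}
    (hx : x ∈ Coded G p q A) : x ∘ g ∈ Coded G p q A := by
  obtain ⟨g1, hg1, h1, h2⟩ := hx
  have e : ∀ g2 : Equiv.Perm ℕ, (x ∘ g) ∘ ((g⁻¹ * g2 : Equiv.Perm ℕ) : ℕ → ℕ) = x ∘ g2 := by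
    intro g2
    funext n
    simp
  have e' : ∀ g2 : Equiv.Perm ℕ, (x ∘ g) ∘ (g2 : ℕ → ℕ) = x ∘ (g * g2 : Equiv.Perm ℕ) := by
    intro g2
    funext n
    simp
  refine ⟨g⁻¹ * g1, G.mul_mem (G.inv_mem hg) hg1, by rwa [e], fun g' hg' h3 => ?_⟩
  rw [e, e']
  exact h2 _ (G.mul_mem hg hg') (by rwa [← e'])

theorem group_coded (A : Set (ℕ → Bool)) : GroupInvariant G (Coded G p q A) := by
  intro g hg x
  refine ⟨fun h => ?_, coded_comp hg⟩
  have h1 := coded_comp (G.inv_mem hg) h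
  have e : (x ∘ g) ∘ ((g⁻¹ : Equiv.Perm ℕ) : ℕ → ℕ) = x := by
    funext n
    simp
  rwa [e] at h1

/-- In a legal play, the two values of almost all pairs in a column are different. -/
theorem Slots.pair_ne (hs : Slots G p q) {β : ℕ} {y : ℕ → Bool} (hy : Legal p q β y) {k : ℕ}
    (hk : k % 2 = β) : ∃ N, ∀ n ≥ N, y (q k n) ≠ y (p k n) := by
  obtain ⟨M, hM⟩ := hy.bddAbove
  refine ⟨M, fun n hn h => ?_⟩
  have h1 : q k n ∈ Errors p q β y := ⟨by rw [hs.qpar, hk], Or.inl ⟨k, n, rfl, h⟩⟩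
  have h2 := hM h1
  have h3 := hs.cols.le k n
  have h4 := hs.pltq k n
  omega

theorem Slots.no_moved (hs : Slots G p q) {β β' : ℕ} (hβ : β < 2) (hβ' : β' < 2) {y : ℕ → Bool}
    (hy : Legal p q β y) {h : Equiv.Perm ℕ} (hh : h ∈ G) (hz : Legal p q β' (y ∘ h)) :
    ¬ {m | m % 2 = β ∧ h⁻¹ m % 2 = β' ∧ h⁻¹ m ≠ m}.Infinite := by
  intro hinf
  obtain ⟨N, hN⟩ := hs.pair_ne hy (k := β) (Nat.mod_eq_of_lt hβ)
  obtain ⟨M, hM⟩ := (hz.image h).bddAbove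
  obtain ⟨n, hn, h1, h2, h3, h4⟩ := hs.moved h⁻¹ (G.inv_mem hh) β hβ β' hβ' hinf β
    (Nat.mod_eq_of_lt hβ) (max N (M + 1))
  have h5 := hN n (le_trans (le_max_left _ _) hn)
  have h6 : M + 1 ≤ n := le_trans (le_max_right _ _) hn
  have h7 := hs.cols.le β n
  have h8 := hs.pltq β n
  have e : ∀ m, (y ∘ h) (h⁻¹ m) = y m := fun m => by simp
  have key : ∀ m, M < m → h⁻¹ m % 2 = β' → (∀ k' n', h⁻¹ m ≠ p k' n' ∧ h⁻¹ m ≠ q k' n') →
      y m ≠ true := by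
    intro m hm h9 h10 h11
    have h12 : h⁻¹ m ∈ Errors p q β' (y ∘ h) := ⟨h9, Or.inr ⟨h10, by rw [e, h11]⟩⟩
    have h13 : m ∈ h '' Errors p q β' (y ∘ h) := ⟨h⁻¹ m, h12, by simp⟩
    have := hM h13
    omega
  have h9 := key (p β n) (by omega) h1 h3
  have h10 := key (q β n) (by omega) h2 h4
  rw [Bool.eq_false_of_not_eq_true h9, Bool.eq_false_of_not_eq_true h10] at h5
  exact h5 rfl

theorem uniq (hs : Slots G p q) (hG : Tight G) {β : ℕ} (hβ : β < 2) {x : ℕ → Bool}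
    (hx : Legal p q (1 - β) x) {g g' : Equiv.Perm ℕ} (hg : g ∈ G) (hg' : g' ∈ G)
    (h1 : Legal p q β (x ∘ g)) (h2 : Legal p q β (x ∘ g')) {k : ℕ} {b b' : Bool} (hk : k % 2 = β)
    (s1 : Settled p (x ∘ g) k b) (s2 : Settled p (x ∘ g') k b') : b = b' := by
  have st : ∀ f ∈ G, Legal p q β (x ∘ f) →
      {m | m % 2 = 1 - β ∧ f⁻¹ m % 2 = β}.Finite := by
    intro f hf hl
    have h3 := hs.no_moved (by omega) hβ hx hf hl
    rw [Set.not_infinite] at h3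
    refine h3.subset fun m hm => ⟨hm.1, hm.2, fun h4 => ?_⟩
    have h5 := hm.1
    have h6 := hm.2
    rw [h4] at h6
    omega
  have f1 := st g hg h1
  have f2 := st g' hg' h2
  have hk0 : g⁻¹ * g' ∈ G := G.mul_mem (G.inv_mem hg) hg'
  have h3 : ¬ (side β ∩ (g⁻¹ * g' : Equiv.Perm ℕ) '' side β).Finite := by
    intro h3
    refine hG β hβ (g⁻¹ * g') hk0 g⁻¹ (G.inv_mem hg) ⟨h3, ?_, ?_⟩
    · refine (f1.image (g⁻¹ : Equiv.Perm ℕ)).subset ?_
      rintro m ⟨hm, m', hm', rfl⟩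
      exact ⟨m', ⟨hm', hm⟩, rfl⟩
    · refine (f2.image (g⁻¹ : Equiv.Perm ℕ)).subset ?_
      rintro m ⟨⟨m1, hm1, rfl⟩, m2, hm2, hm3⟩
      refine ⟨m2, ⟨hm2, ?_⟩, hm3⟩
      have h4 : g' m1 = m2 := by
        have := congrArg g hm3
        simpa using this.symm
      rw [← h4]
      show g'⁻¹ (g' m1) % 2 = β
      simpa using (show m1 % 2 = β from hm1)
  have h4 := hs.no_moved hβ hβ h1 hk0 (by
    have e : (x ∘ g) ∘ ((g⁻¹ * g' : Equiv.Perm ℕ) : ℕ → ℕ) = x ∘ g' := by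
      funext n
      simp
    rwa [e])
  have h5 : {m | m % 2 = β ∧ (g⁻¹ * g' : Equiv.Perm ℕ)⁻¹ m = m}.Infinite := by
    rw [Set.not_infinite] at h4
    intro h5
    refine h3 ((h4.union h5).subset ?_)
    rintro m ⟨hm, m', hm', rfl⟩
    by_cases h6 : (g⁻¹ * g' : Equiv.Perm ℕ)⁻¹ ((g⁻¹ * g' : Equiv.Perm ℕ) m') =
        (g⁻¹ * g' : Equiv.Perm ℕ) m'
    · exact Or.inr ⟨hm, h6⟩
    · refine Or.inl ⟨hm, ?_, h6⟩
      have h7 : (g⁻¹ * g' : Equiv.Perm ℕ)⁻¹ ((g⁻¹ * g' : Equiv.Perm ℕ) m') = m' := by simp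
      rw [h7]
      exact hm'
  obtain ⟨N, hN⟩ := s1
  obtain ⟨N', hN'⟩ := s2
  obtain ⟨n, hn, h6⟩ := hs.fixed _ (G.inv_mem hk0) β hβ h5 k hk (max N N')
  have h7 := hN n (le_trans (le_max_left _ _) hn)
  have h8 := hN' n (le_trans (le_max_right _ _) hn)
  rw [Equiv.Perm.inv_eq_iff_eq, Equiv.Perm.mul_apply] at h6
  have h9 : g (p k n) = g' (p k n) := by
    have := congrArg g h6
    simpa using this
  rw [← h7, ← h8, Function.comp, Function.comp, h9]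

end Pool.Agent.Helper89K9.TG
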