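import Pool.Agent.Helper89K9.TG.Fwd

set_option autoImplicit false

namespace Pool.Agent.Helper89K9.TG

open Pool.Agent.Helper227 Pool.Agent.H685R3 Pool.Agent.Y588.VT Set Topology

variable {G : Subgroup (Equiv.Perm ℕ)} {p q : ℕ → ℕ → ℕ}

theorem mix_eq (a b : ℕ → Bool) : mix a b = mx 0 a b := rfl

theorem mix_eq' (a b : ℕ → Bool) : mix a b = mx 1 b a := by
  funext n
  rcases Nat.mod_two_eq_zero_or_one n with h | h
  · simp [mix, mx, h]
  · simp [mix, mx, h]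

theorem Run.legal {β : ℕ} {s : List Bool → Bool} {x : ℕ → Bool} (hs : Slots G p q)
    (h : Run p q β s x) {γ : ℕ} (hγ : γ ≠ β) : Legal p q γ x := by
  have h1 : Errors p q γ x = ∅ := by
    rw [eq_empty_iff_forall_notMem]
    rintro m ⟨hm, ⟨k, n, rfl, h2⟩ | ⟨h2, h3⟩⟩
    · rw [h.2.1 k n (by rw [← hs.qpar k n, hm]; exact hγ)] at h2
      simp at h2
    · rw [h.2.2 m (by rw [hm]; exact hγ) h2] at h3
      exact absurd h3 (by decide)
  rw [Legal, h1]
  exact finite_empty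

theorem comp_one (x : ℕ → Bool) : x ∘ ((1 : Equiv.Perm ℕ) : ℕ → ℕ) = x := rfl

theorem main (G : Subgroup (Equiv.Perm ℕ)) (hc : Countable G) (hG : Tight G) :
    ∃ p q : ℕ → ℕ → ℕ, ∀ A : Set (ℕ → Bool),
      TailInvariant (Coded G p q A) ∧ GroupInvariant G (Coded G p q A) ∧
      (WinsI (Coded G p q A) ↔ WinsI A) ∧ (WinsII (Coded G p q A) ↔ WinsII A) := by
  obtain ⟨p, q, hs⟩ := exists_slots G
  refine ⟨p, q, fun A => ⟨tail_coded hs A, group_coded A, ⟨fun h => ?_, fun h => ?_⟩,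
    ⟨fun h => ?_, fun h => ?_⟩⟩⟩
  · rw [winsI_iff] at h ⊢
    obtain ⟨s, h⟩ := h
    refine wins_back (s := s) hs (by omega) (fun x hx => ?_) (fun x hx g hg g' hg' h1 h2 k b b'
      hk s1 s2 => uniq hs hG (by omega) (hx.legal hs (by omega)) hg hg' h1 h2 hk s1 s2)
    obtain ⟨g, hg, h1, h2⟩ := h x hx.1
    refine ⟨g, hg, h1, ?_⟩
    have h3 := h2 1 G.one_mem (hx.legal hs (by omega))
    rwa [voting_eq, mix_eq] at h3
  · rw [winsI_iff] at h ⊢
    obtain ⟨s, h⟩ := wins_fwd hs hG (by omega) h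
    refine ⟨s, fun x hx => ?_⟩
    obtain ⟨h1, h2⟩ := h x hx
    refine ⟨1, G.one_mem, h1, fun g hg h3 => ?_⟩
    rw [voting_eq, mix_eq]
    exact h2 g hg h3
  · rw [winsII_iff] at h ⊢
    obtain ⟨s, h⟩ := h
    refine wins_back (s := s) hs (by omega) (fun x hx => ?_) (fun x hx g hg g' hg' h1 h2 k b b'
      hk s1 s2 => uniq hs hG (by omega) (hx.legal hs (by omega)) hg hg' h1 h2 hk s1 s2)
    have h1 : x ∉ Coded G p q A := h x hx.1
    by_contra hcon
    refine h1 ⟨1, G.one_mem, hx.legal hs (by omega), fun g hg h2 => ?_⟩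
    by_contra h3
    refine hcon ⟨g, hg, h2, ?_⟩
    rw [comp_one, mix_eq'] at h3
    rw [← voting_compl]
    exact h3
  · rw [winsII_iff] at h ⊢
    obtain ⟨s, h⟩ := wins_fwd hs hG (by omega) h
    refine ⟨s, fun x hx => ?_⟩
    obtain ⟨h1, h2⟩ := h x hx
    rintro ⟨g, hg, h3, h4⟩
    have h5 := h4 1 G.one_mem h1
    have h6 := h2 g hg h3
    rw [← voting_compl] at h6
    rw [comp_one, mix_eq'] at h5
    exact h6 h5

end Pool.Agent.Helper89K9.TG
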