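import Pool.Agent.Helper89K9.TG.Defs

set_option autoImplicit false

namespace Pool.Agent.Helper89K9.TG

open Pool.Agent.Helper227 Pool.Agent.H685R3 Pool.Agent.Y588.VT

/-- Generic positions for the votes. -/
structure Slots (G : Subgroup (Equiv.Perm ℕ)) (p q : ℕ → ℕ → ℕ) : Prop where
  cols : Cols p
  qpar : ∀ k n, q k n % 2 = k % 2
  pltq : ∀ k n, p k n < q k n
  pinj : ∀ k n k' n', p k n = p k' n' → k = k' ∧ n = n'
  qinj : ∀ k n k' n', q k n = q k' n' → k = k' ∧ n = n'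
  pneq : ∀ k n k' n', p k n ≠ q k' n'
  moved : ∀ g ∈ G, ∀ β < 2, ∀ β' < 2, {m | m % 2 = β ∧ g m % 2 = β' ∧ g m ≠ m}.Infinite →
    ∀ k, k % 2 = β → ∀ N, ∃ n ≥ N, g (p k n) % 2 = β' ∧ g (q k n) % 2 = β' ∧
      (∀ k' n', g (p k n) ≠ p k' n' ∧ g (p k n) ≠ q k' n') ∧
      (∀ k' n', g (q k n) ≠ p k' n' ∧ g (q k n) ≠ q k' n')
  fixed : ∀ g ∈ G, ∀ β < 2, {m | m % 2 = β ∧ g m = m}.Infinite →
    ∀ k, k % 2 = β → ∀ N, ∃ n ≥ N, g (p k n) = p k n

theorem exists_run {f : ℕ → ℕ → ℕ × ℕ × ℕ → Prop} (h : ∀ j B, ∃ z, f j B z) :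
    ∃ P Q B : ℕ → ℕ, ∀ j, f j (B j) (P j, Q j, B (j + 1)) := by
  choose F hF using h
  let B : ℕ → ℕ := fun j => Nat.rec 0 (fun j b => (F j b).2.2) j
  exact ⟨fun j => (F j (B j)).1, fun j => (F j (B j)).2.1, B, fun j => hF j (B j)⟩

theorem inf_sdiff {S : Set ℕ} (hS : S.Infinite) (g : Equiv.Perm ℕ) (B C : ℕ) :
    (S \ ({m | m ≤ B} ∪ {m | g m ≤ C})).Infinite := by
  refine hS.sdiff (Set.Finite.union (Set.finite_le_nat B) ?_)
  have : {m | g m ≤ C} = g ⁻¹' {m | m ≤ C} := rfl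
  rw [this]
  exact (Set.finite_le_nat C).preimage g.injective.injOn

/-- The conditions on one pair of positions. -/
def Step (g : Equiv.Perm ℕ) (β : ℕ) (S : Set ℕ) (B : ℕ) (z : ℕ × ℕ × ℕ) : Prop :=
  B < z.1 ∧ z.1 < z.2.1 ∧ z.2.1 < z.2.2 ∧ z.1 % 2 = β ∧ z.2.1 % 2 = β ∧
    (S.Infinite → z.1 ∈ S ∧ z.2.1 ∈ S ∧ B < g z.1 ∧ g z.1 < z.2.2 ∧ g z.1 ≠ z.2.1 ∧
      B < g z.2.1 ∧ g z.2.1 < z.2.2 ∧ g z.2.1 ≠ z.1)

theorem exists_step (g : Equiv.Perm ℕ) {β : ℕ} (hβ : β < 2) {S : Set ℕ}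
    (hS : ∀ m ∈ S, m % 2 = β) (B : ℕ) : ∃ z, Step g β S B z := by
  by_cases h : S.Infinite
  · obtain ⟨P, hP, hP'⟩ := (inf_sdiff h g B B).nonempty
    simp only [Set.mem_union, Set.mem_ofPred_eq, not_or, not_le] at hP'
    obtain ⟨Q, hQ, hQ'⟩ := (inf_sdiff h g (max P (g P)) (max B P)).nonempty
    simp only [Set.mem_union, Set.mem_ofPred_eq, not_or, not_le] at hQ'
    refine ⟨(P, Q, max (Q + 1) (max (g P + 1) (g Q + 1))), hP'.1, ?_, ?_, hS P hP, hS Q hQ,
      fun _ => ⟨hP, hQ, hP'.2, ?_, ?_, ?_, ?_, ?_⟩⟩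
    all_goals simp only
    all_goals omega
  · refine ⟨(2 * (B + 1) + β, 2 * (B + 1) + β + 2, 2 * (B + 1) + β + 3), ?_⟩
    refine ⟨by simp only; omega, by simp only; omega, by simp only; omega, by simp only; omega,
      by simp only; omega, fun h' => absurd h' h⟩

/-- The set of candidates for the type `t`. -/
def cand (g : Equiv.Perm ℕ) (β t : ℕ) : Set ℕ :=
  if t = 2 then {m | m % 2 = β ∧ g m = m} else {m | m % 2 = β ∧ g m % 2 = t ∧ g m ≠ m}

theorem cand_par {g : Equiv.Perm ℕ} {β t m : ℕ} (h : m ∈ cand g β t) : m % 2 = β := by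
  unfold cand at h
  split_ifs at h
  · exact h.1
  · exact h.1

theorem exists_slots (G : Subgroup (Equiv.Perm ℕ)) [Countable G] :
    ∃ p q : ℕ → ℕ → ℕ, Slots G p q := by
  obtain ⟨e, he⟩ := exists_surjective_nat G
  let idx : ℕ → ℕ := fun n => n.unpair.1
  let typ : ℕ → ℕ := fun n => n.unpair.2.unpair.1
  obtain ⟨P, Q, B, hrun⟩ := exists_run (f := fun j B z =>
    Step (e (idx j.unpair.2)) (j.unpair.1 % 2) (cand (e (idx j.unpair.2)) (j.unpair.1 % 2)
      (typ j.unpair.2)) B z) (fun j B => exists_step _ (by omega) (fun m hm => cand_par hm) B)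
  have h1 : ∀ j, B j < P j := fun j => (hrun j).1
  have h2 : ∀ j, P j < Q j := fun j => (hrun j).2.1
  have h3 : ∀ j, Q j < B (j + 1) := fun j => (hrun j).2.2.1
  have hBm : StrictMono B := strictMono_nat_of_lt_succ fun j => by
    have := h1 j; have := h2 j; have := h3 j; omega
  have hPm : ∀ i j, i < j → Q i < P j := fun i j hij => by
    have h4 : B (i + 1) ≤ B j := hBm.monotone hij
    have := h1 j; have := h3 i; omega
  have hPinj : ∀ i j, P i = P j → i = j := fun i j hij => by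
    rcases lt_trichotomy i j with h | h | h
    · have := hPm i j h; have := h2 i; omega
    · exact h
    · have := hPm j i h; have := h2 j; omega
  have hQinj : ∀ i j, Q i = Q j → i = j := fun i j hij => by
    rcases lt_trichotomy i j with h | h | h
    · have := hPm i j h; have := h2 j; omega
    · exact h
    · have := hPm j i h; have := h2 i; omega
  have hPQ : ∀ i j, P i ≠ Q j := fun i j hij => by
    rcases lt_trichotomy i j with h | h | h
    · have := hPm i j h; have := h2 j; have := h2 i; omega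
    · subst h; have := h2 i; omega
    · have := hPm j i h; omega
  have hpair : ∀ k n k' n', Nat.pair k n = Nat.pair k' n' → k = k' ∧ n = n' :=
    fun k n k' n' h => Nat.pair_eq_pair.1 h
  -- a value in the gap avoids all positions
  have havoid : ∀ j v, B j < v → v < B (j + 1) → v ≠ P j → v ≠ Q j → ∀ i, v ≠ P i ∧ v ≠ Q i := by
    intro j v hv1 hv2 hv3 hv4 i
    rcases lt_trichotomy i j with h | h | h
    · have h4 : B (i + 1) ≤ B j := hBm.monotone h
      have := h2 i; have := h3 i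
      constructor <;> omega
    · subst h
      exact ⟨hv3, hv4⟩
    · have h4 : B (j + 1) ≤ B i := hBm.monotone h
      have := h2 i; have := h1 i
      constructor <;> omega
  refine ⟨fun k n => P (Nat.pair k n), fun k n => Q (Nat.pair k n), ⟨⟨?_, ?_, ?_⟩, ?_, ?_, ?_, ?_,
    ?_, ?_, ?_⟩⟩
  · intro k n
    have := (hrun (Nat.pair k n)).2.2.2.1
    simpa using this
  · intro k n k' n' h
    exact (hpair _ _ _ _ (hPinj _ _ h)).1
  · intro k n n' h
    have h4 := Nat.pair_lt_pair_right k h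
    have := hPm _ _ h4; have := h2 (Nat.pair k n)
    omega
  · intro k n
    have := (hrun (Nat.pair k n)).2.2.2.2.1
    simpa using this
  · intro k n
    exact h2 _
  · intro k n k' n' h
    exact hpair _ _ _ _ (hPinj _ _ h)
  · intro k n k' n' h
    exact hpair _ _ _ _ (hQinj _ _ h)
  · intro k n k' n'
    exact hPQ _ _
  · intro g hg β hβ β' hβ' hinf k hk N
    obtain ⟨i, hi⟩ := he ⟨g, hg⟩
    have hi' : ((e i : G) : Equiv.Perm ℕ) = g := by rw [hi]
    refine ⟨Nat.pair i (Nat.pair β' N), (Nat.right_le_pair _ _).trans (Nat.right_le_pair _ _), ?_⟩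
    have h5 := (hrun (Nat.pair k (Nat.pair i (Nat.pair β' N)))).2.2.2.2.2
    simp only [Nat.unpair_pair, idx, typ, hi'] at h5
    have h6 : cand g (k % 2) β' = {m | m % 2 = β ∧ g m % 2 = β' ∧ g m ≠ m} := by
      rw [cand, if_neg (by omega), hk]
    rw [h6] at h5
    obtain ⟨⟨-, h7, h8⟩, ⟨-, h9, h10⟩, h11, h12, h13, h14, h15, h16⟩ := h5 hinf
    exact ⟨h7, h9, fun k' n' => havoid _ _ h11 h12 h8 h13 _,
      fun k' n' => havoid _ _ h14 h15 h16 h10 _⟩
  · intro g hg β hβ hinf k hk N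
    obtain ⟨i, hi⟩ := he ⟨g, hg⟩
    have hi' : ((e i : G) : Equiv.Perm ℕ) = g := by rw [hi]
    refine ⟨Nat.pair i (Nat.pair 2 N), (Nat.right_le_pair _ _).trans (Nat.right_le_pair _ _), ?_⟩
    have h5 := (hrun (Nat.pair k (Nat.pair i (Nat.pair 2 N)))).2.2.2.2.2
    simp only [Nat.unpair_pair, idx, typ, hi'] at h5
    have h6 : cand g (k % 2) 2 = {m | m % 2 = β ∧ g m = m} := by
      rw [cand, if_pos rfl, hk]
    rw [h6] at h5
    exact (h5 hinf).1.2

end Pool.Agent.Helper89K9.TG
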